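import Pool.Agent.H80.UE.RothB

/-!
# Module ROTH (MP_c80192_nt): Roth's lemma.
-/

open MvPolynomial NumberField

namespace Pool.Agent.H21.UE

universe u

namespace Roth

/-- the matrix entries: the Hasse derivative of a sum of separated products -/
lemma det_split {K : Type*} [Field K] {m k : ℕ} (φ : Fin k → MvPolynomial (Fin m) K)
    (ψ : Fin k → MvPolynomial (Fin 1) K) (I : Fin k → (Fin m →₀ ℕ)) (J : Fin k → ℕ) :
    (Matrix.of fun i j => hasse (Finsupp.cons (J j) (I i)) (∑ l, mul2 (φ l) (ψ l))).det =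
      mul2 (Matrix.of fun i l => hasse (I i) (φ l)).det
        (Matrix.of fun j l => hasse (Finsupp.single 0 (J j)) (ψ l)).det := by
  have h1 : (Matrix.of fun i j => hasse (Finsupp.cons (J j) (I i)) (∑ l, mul2 (φ l) (ψ l))) =
      (rename Fin.succ : MvPolynomial (Fin m) K →ₐ[K] MvPolynomial (Fin (m + 1)) K).toRingHom.mapMatrix
          (Matrix.of fun i l => hasse (I i) (φ l)) *
        ((rename (fun _ => (0 : Fin (m + 1))) :
          MvPolynomial (Fin 1) K →ₐ[K] MvPolynomial (Fin (m + 1)) K).toRingHom.mapMatrix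
          (Matrix.of fun j l => hasse (Finsupp.single 0 (J j)) (ψ l))).transpose := by
    ext i j : 1
    rw [Matrix.of_apply, hasse_sum, Matrix.mul_apply]
    apply Finset.sum_congr rfl
    intro l _
    rw [hasse_mul2]
    rfl
  rw [h1, Matrix.det_mul, Matrix.det_transpose, ← RingHom.map_det, ← RingHom.map_det]
  rfl

/-- the induction step -/
lemma step (h1 : T_HAS.{u}) (h2 : T_WRO) (h3 : T_BAS.{u}) (m : ℕ) (hm : 1 ≤ m)
    (ih : ∀ ε : ℝ, 0 < ε → ∃ ω : ℝ, 0 < ω ∧
      ∀ (L : Type u) [Field L] [NumberField L] (ξ : Fin m → L) (r : Fin m → ℕ)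
        (p : MvPolynomial (Fin m) ℤ) (T : Fin m → ℝ), p ≠ 0 → (∀ h, 1 ≤ r h) →
        (∀ h h', h < h' → (r h : ℝ) ≤ ω * r h') → (∀ h, p.degreeOf h ≤ r h) →
        (∀ h, 1 ≤ T h) → (∀ h, ¬ Ht (ξ h) (T h)) →
        (∀ h h', Real.log (l1 p) + r h' ≤ ω * r h * Real.log (T h)) →
        ¬ IndGE ξ (fun h => (r h : ℝ)) ε (map (Int.castRingHom L) p)) (ε : ℝ) (hε : 0 < ε)
    (hε1 : ε ≤ 1) : ∃ ω : ℝ, 0 < ω ∧
      ∀ (L : Type u) [Field L] [NumberField L] (ξ : Fin (m + 1) → L) (r : Fin (m + 1) → ℕ)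
        (p : MvPolynomial (Fin (m + 1)) ℤ) (T : Fin (m + 1) → ℝ), p ≠ 0 → (∀ h, 1 ≤ r h) →
        (∀ h h', h < h' → (r h : ℝ) ≤ ω * r h') → (∀ h, p.degreeOf h ≤ r h) →
        (∀ h, 1 ≤ T h) → (∀ h, ¬ Ht (ξ h) (T h)) →
        (∀ h h', Real.log (l1 p) + r h' ≤ ω * r h * Real.log (T h)) →
        ¬ IndGE ξ (fun h => (r h : ℝ)) ε (map (Int.castRingHom L) p) := by
  classical
  set ε' : ℝ := ε ^ 2 / 64 with hε'
  have hε'0 : 0 < ε' := by positivity
  obtain ⟨ω₁, hω₁, ihω⟩ := ih ε' hε'0
  set ω : ℝ := min (ε / 2) (min (ω₁ / (m + 3)) (ε' / (m + 3))) with hω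
  have hm3 : (0 : ℝ) < m + 3 := by positivity
  have hω0 : 0 < ω := by
    rw [hω]
    refine lt_min (by positivity) (lt_min (by positivity) (by positivity))
  have hωa : ω ≤ ε / 2 := min_le_left _ _
  have hωb : (m + 3) * ω ≤ ω₁ := by
    have : ω ≤ ω₁ / (m + 3) := (min_le_right _ _).trans (min_le_left _ _)
    rw [le_div_iff₀ hm3] at this
    linarith
  have hωc : (m + 3) * ω ≤ ε' := by
    have : ω ≤ ε' / (m + 3) := (min_le_right _ _).trans (min_le_right _ _)
    rw [le_div_iff₀ hm3] at this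
    linarith
  refine ⟨ω, hω0, ?_⟩
  intro L _ _ ξ r p T hp hr hrr hdeg hT hHt hlog hind
  -- the largest degree
  set R : ℕ := Finset.univ.sup r with hR
  have hrR : ∀ h, r h ≤ R := fun h => Finset.le_sup (Finset.mem_univ h)
  obtain ⟨hs, -, hhs⟩ := Finset.exists_mem_eq_sup Finset.univ Finset.univ_nonempty r
  have hlogR : ∀ h, Real.log (l1 p) + R ≤ ω * r h * Real.log (T h) := by
    intro h
    have := hlog h hs
    rw [← hhs] at this
    exact this
  have hl1 : 1 ≤ l1 p := one_le_l1 p hp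
  have hlog0 : 0 ≤ Real.log (l1 p) := Real.log_nonneg hl1
  -- decomposition
  set P : MvPolynomial (Fin (m + 1)) ℚ := map (Int.castRingHom ℚ) p with hP
  have hP0 : P ≠ 0 := by
    intro h
    apply hp
    apply map_injective (Int.castRingHom ℚ) Int.cast_injective
    rw [← hP, h, map_zero]
  have hPdeg : P.degreeOf 0 ≤ r 0 := by
    refine le_trans ?_ (hdeg 0)
    rw [degreeOf_le_iff]
    intro J hJ
    exact (degreeOf_le_iff.1 le_rfl) J (support_map_subset _ _ hJ)
  obtain ⟨k, hk, φ, ψ, hdec, hφ, hψ⟩ := min_decomp (mulB ℚ m) P (r 0 + 1)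
    (triv_decomp P (r 0) hPdeg)
  have hk1 : 1 ≤ k := by
    rcases Nat.eq_zero_or_pos k with h | h
    · subst h
      exact absurd (by rw [hdec]; simp) hP0
    · exact h
  simp only [mulB_apply] at hdec
  obtain ⟨I, hI, hU⟩ := h2 m k φ hφ
  obtain ⟨J', hJ', hV⟩ := h2 1 k ψ hψ
  set J : Fin k → ℕ := fun j => J' j 0 with hJdef
  have hJs : ∀ j, J' j = Finsupp.single 0 (J j) := fun j => by ext; simp [hJdef]
  have hJ : ∀ j, J j ≤ j := by
    intro j
    have := hJ' j
    rw [hJs, Finsupp.degree_single] at this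
    exact this
  set W : MvPolynomial (Fin (m + 1)) ℤ :=
    (Matrix.of fun i j => hasse (Finsupp.cons (J j) (I i)) p).det with hW
  have hWmap : map (Int.castRingHom ℚ) W =
      mul2 (Matrix.of fun i l => hasse (I i) (φ l)).det
        (Matrix.of fun j l => hasse (J' j) (ψ l)).det := by
    have h4 : (Matrix.of fun j l => hasse (J' j) (ψ l)) =
        (Matrix.of fun j l => hasse (Finsupp.single 0 (J j)) (ψ l)) := by
      ext j l : 2
      rw [Matrix.of_apply, Matrix.of_apply, hJs]
    rw [h4, ← det_split, ← hdec, hW, RingHom.map_det]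
    congr 1
    ext i j : 2
    simp only [RingHom.mapMatrix_apply, Matrix.map_apply, Matrix.of_apply]
    rw [map_hasse]
  obtain ⟨U', V', hU', hV', hWUV⟩ := integral_split W _ _ hU hV hWmap
  have hW0 : W ≠ 0 := by
    intro h
    rw [h] at hWUV
    obtain ⟨a, ha⟩ := exists_single V' hV'
    obtain ⟨K, hK⟩ := MvPolynomial.ne_zero_iff.1 hU'
    have := support_mul2 U' V' K a hK ha
    rw [← hWUV] at this
    exact this (coeff_zero _)
  -- the height of `W`
  have hWl : Real.log (l1 W) ≤ k * (Real.log (l1 p) + (m + 2) * R) := by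
    have h5 : l1 W ≤ k.factorial * ((2 : ℝ) ^ (∑ i, r i) * l1 p) ^ k := by
      apply l1_det
      intro i j
      rw [Matrix.of_apply]
      exact (h1.2.1 (m + 1) _ r p hdeg).2
    have h6 : (k.factorial : ℝ) ≤ ((2 : ℝ) ^ R) ^ k := by
      have h7 : k.factorial ≤ k ^ k := Nat.factorial_le_pow k
      have h8 : k ≤ 2 ^ R := by
        calc k ≤ r 0 + 1 := hk
          _ ≤ R + 1 := by have := hrR 0; omega
          _ ≤ 2 ^ R := Nat.lt_two_pow_self
      have h9 : k.factorial ≤ (2 ^ R) ^ k := h7.trans (Nat.pow_le_pow_left h8 k)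
      exact_mod_cast h9
    have h10 : (2 : ℝ) ^ (∑ i, r i) ≤ 2 ^ ((m + 1) * R) := by
      apply pow_le_pow_right₀ (by norm_num)
      calc ∑ i, r i ≤ ∑ _i : Fin (m + 1), R := Finset.sum_le_sum fun i _ => hrR i
        _ = (m + 1) * R := by simp
    have h11 : l1 W ≤ ((2 : ℝ) ^ ((m + 2) * R) * l1 p) ^ k := by
      calc l1 W ≤ k.factorial * ((2 : ℝ) ^ (∑ i, r i) * l1 p) ^ k := h5
        _ ≤ ((2 : ℝ) ^ R) ^ k * ((2 : ℝ) ^ ((m + 1) * R) * l1 p) ^ k := by
          apply mul_le_mul h6 _ (by positivity) (by positivity)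
          apply pow_le_pow_left₀ (by positivity)
          exact mul_le_mul_of_nonneg_right h10 (by linarith)
        _ = ((2 : ℝ) ^ ((m + 2) * R) * l1 p) ^ k := by
          rw [← mul_pow]
          congr 1
          rw [← mul_assoc, ← pow_add]
          congr 2
          ring
    have hW1 : 1 ≤ l1 W := one_le_l1 W hW0
    have h12 := Real.log_le_log (by linarith) h11
    rw [Real.log_pow, Real.log_mul (by positivity) (by linarith), Real.log_pow] at h12
    refine h12.trans ?_
    apply mul_le_mul_of_nonneg_left _ (Nat.cast_nonneg k)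
    have h13 : Real.log 2 ≤ 1 := by
      have := Real.log_two_lt_d9
      linarith
    have h14 : (((m + 2) * R : ℕ) : ℝ) * Real.log 2 ≤ (m + 2) * R := by
      push_cast
      have : (0 : ℝ) ≤ (m + 2) * R := by positivity
      nlinarith
    linarith
  have hk0 : (0 : ℝ) < k := by exact_mod_cast hk1
  have hkey : ∀ h h' : Fin (m + 1), ∀ q : ℝ, (0 ≤ q) → q ≤ Real.log (l1 W) →
      ∀ ω' : ℝ, (m + 3) * ω ≤ ω' →
      q + ((k * r h' : ℕ) : ℝ) ≤ ω' * ((k * r h : ℕ) : ℝ) * Real.log (T h) := by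
    intro h h' q hq0 hq ω' hω'
    have h20 := hlogR h
    have h21 : (r h' : ℝ) ≤ R := by exact_mod_cast hrR h'
    have h22 : 0 ≤ Real.log (T h) := Real.log_nonneg (hT h)
    have h23 : (0 : ℝ) ≤ r h := Nat.cast_nonneg _
    have h24 : (0 : ℝ) ≤ R := Nat.cast_nonneg _
    push_cast
    calc q + k * (r h' : ℝ) ≤ k * (Real.log (l1 p) + (m + 2) * R) + k * R := by
          have := mul_le_mul_of_nonneg_left h21 hk0.le
          linarith
      _ = k * (Real.log (l1 p) + (m + 3) * R) := by ring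
      _ ≤ k * ((m + 3) * (Real.log (l1 p) + R)) := by
          apply mul_le_mul_of_nonneg_left _ hk0.le
          have : (0 : ℝ) ≤ m := Nat.cast_nonneg _
          nlinarith
      _ ≤ k * ((m + 3) * (ω * r h * Real.log (T h))) := by
          apply mul_le_mul_of_nonneg_left _ hk0.le
          exact mul_le_mul_of_nonneg_left h20 hm3.le
      _ = ((m + 3) * ω) * (k * r h * Real.log (T h)) := by ring
      _ ≤ ω' * (k * r h * Real.log (T h)) := by
          apply mul_le_mul_of_nonneg_right hω' (by positivity)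
      _ = ω' * (k * r h) * Real.log (T h) := by ring
  -- nonvanishing for `U'`
  have hUind := ihω L (fun h => ξ h.succ) (fun h => k * r h.succ) U' (fun h => T h.succ) hU'
    (fun h => Nat.one_le_iff_ne_zero.2 (Nat.mul_ne_zero (by omega) (by have := hr h.succ; omega)))
    (by
      intro h h' hh
      have := hrr h.succ h'.succ (Fin.succ_lt_succ_iff.2 hh)
      push_cast
      have h30 : ω ≤ ω₁ := by
        refine le_trans ?_ hωb
        have : (0 : ℝ) ≤ m := Nat.cast_nonneg _
        nlinarith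
      calc (k : ℝ) * r h.succ ≤ k * (ω * r h'.succ) := mul_le_mul_of_nonneg_left this hk0.le
        _ ≤ k * (ω₁ * r h'.succ) := by
            apply mul_le_mul_of_nonneg_left _ hk0.le
            exact mul_le_mul_of_nonneg_right h30 (Nat.cast_nonneg _)
        _ = ω₁ * (k * r h'.succ) := by ring)
    (by
      intro h
      refine (degreeOf_left U' V' hV' h).trans ?_
      rw [← hWUV]
      apply degreeOf_det
      intro i j
      rw [Matrix.of_apply]
      exact (h1.2.1 (m + 1) _ r p hdeg).1 h.succ)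
    (fun h => hT _) (fun h => hHt _)
    (by
      intro h h'
      apply hkey h.succ h'.succ _ (Real.log_nonneg (one_le_l1 U' hU')) _ _ hωb
      apply Real.log_le_log (by have := one_le_l1 U' hU'; linarith)
      rw [hWUV]
      exact l1_left U' V' hV')
  have hVind := base h3 ε' hε'0 L (ξ 0) (k * r 0) V' (T 0) hV'
    (Nat.one_le_iff_ne_zero.2 (Nat.mul_ne_zero (by omega) (by have := hr 0; omega))) (hT 0)
    (hHt 0) (by
      apply hkey 0 0 _ (Real.log_nonneg (one_le_l1 V' hV')) _ _ hωc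
      apply Real.log_le_log (by have := one_le_l1 V' hV'; linarith)
      rw [hWUV]
      exact l1_right U' V' hU')
  unfold IndGE at hUind hVind
  push Not at hUind hVind
  obtain ⟨K, hK, hKne⟩ := hUind
  obtain ⟨K₀, hK₀, hK₀ne⟩ := hVind
  -- the index of `W`
  have hr0 : ∀ i, (0 : ℝ) < r i := fun i => by exact_mod_cast hr i
  have hWind : IndGE ξ (fun h => (r h : ℝ)) (∑ j : Fin k, max 0 (ε / 2 - (j : ℝ) / r 0))
      (map (Int.castRingHom L) W) := by
    have h40 : map (Int.castRingHom L) W = (Matrix.of fun i j =>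
        hasse (Finsupp.cons (J j) (I i)) (map (Int.castRingHom L) p)).det := by
      rw [hW, RingHom.map_det]
      congr 1
      ext i j : 2
      simp only [RingHom.mapMatrix_apply, Matrix.map_apply, Matrix.of_apply]
      rw [map_hasse]
    rw [h40]
    apply h1.2.2.2.2 (m + 1) k L ξ (fun h => (r h : ℝ)) _ _ hr0
    intro i j
    rw [Matrix.of_apply]
    rcases max_cases (0 : ℝ) (ε / 2 - (j : ℝ) / r 0) with ⟨h, -⟩ | ⟨h, -⟩
    · rw [h]
      exact indGE_nonpos hr0 le_rfl
    · rw [h]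
      refine IndGE.mono ?_ (h1.2.2.1 (m + 1) L ξ (fun h => (r h : ℝ)) ε _ _ hr0 hind)
      rw [Fin.sum_univ_succ]
      simp only [Finsupp.cons_zero, Finsupp.cons_succ]
      have h41 : ((J j : ℕ) : ℝ) / r 0 ≤ (j : ℝ) / r 0 := by
        apply div_le_div_of_nonneg_right _ (hr0 0).le
        exact_mod_cast hJ j
      have h42 : ∑ h : Fin m, ((I i h : ℕ) : ℝ) / r h.succ ≤ ω := by
        have h43 : ∀ h : Fin m, ((I i h : ℕ) : ℝ) / r h.succ ≤ ((I i h : ℕ) : ℝ) * (ω / r 0) := by
          intro h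
          rw [div_eq_mul_inv]
          apply mul_le_mul_of_nonneg_left _ (Nat.cast_nonneg _)
          have := hrr 0 h.succ (Fin.succ_pos h)
          rw [inv_eq_one_div, div_le_div_iff₀ (hr0 _) (hr0 _)]
          linarith
        refine (Finset.sum_le_sum fun h _ => h43 h).trans ?_
        rw [← Finset.sum_mul]
        have h44 : (∑ h : Fin m, ((I i h : ℕ) : ℝ)) ≤ r 0 := by
          have h45 := hI i
          rw [Finsupp.degree_eq_sum] at h45
          have h46 : (∑ h : Fin m, I i h) ≤ r 0 := by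
            have := i.2
            omega
          exact_mod_cast h46
        calc (∑ h : Fin m, ((I i h : ℕ) : ℝ)) * (ω / r 0) ≤ r 0 * (ω / r 0) := by
              apply mul_le_mul_of_nonneg_right h44
              have := hr0 0
              positivity
          _ = ω := by
              have := (hr0 0).ne'
              field_simp
      linarith
  -- contradiction
  have hsum : (∑ i, ((Finsupp.cons (K₀ 0) K : Fin (m + 1) →₀ ℕ) i : ℝ) / r i) <
      ∑ j : Fin k, max 0 (ε / 2 - (j : ℝ) / r 0) := by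
    have h50 := sum_max_ge (ε / 2) (by positivity) (by linarith) k (r 0) hk1 (hr 0) hk
    refine lt_of_lt_of_le ?_ h50
    rw [Fin.sum_univ_succ]
    simp only [Finsupp.cons_zero, Finsupp.cons_succ]
    simp only [Finset.univ_unique, Fin.default_eq_zero, Finset.sum_singleton] at hK₀
    push_cast at hK hK₀
    have h51 : ((K₀ 0 : ℕ) : ℝ) / r 0 < k * ε' := by
      have h52 : ((K₀ 0 : ℕ) : ℝ) / r 0 = k * (((K₀ 0 : ℕ) : ℝ) / (k * r 0)) := by
        have := (hr0 0).ne'
        field_simp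
      rw [h52]
      exact mul_lt_mul_of_pos_left hK₀ hk0
    have h53 : ∑ i : Fin m, ((K i : ℕ) : ℝ) / r i.succ < k * ε' := by
      have h54 : ∑ i : Fin m, ((K i : ℕ) : ℝ) / r i.succ =
          k * ∑ i : Fin m, ((K i : ℕ) : ℝ) / (k * r i.succ) := by
        rw [Finset.mul_sum]
        apply Finset.sum_congr rfl
        intro i _
        have := (hr0 i.succ).ne'
        field_simp
      rw [h54]
      exact mul_lt_mul_of_pos_left hK hk0
    have h55 : (ε / 2) ^ 2 * k / 4 = 4 * (k * ε') := by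
      rw [hε']; ring
    have h56 : 0 < k * ε' := by positivity
    rw [h55]
    linarith
  have hzero := hWind _ hsum
  rw [hWUV, map_mul2, tay_mul2, coeff_mul2, Finsupp.tail_cons, Finsupp.cons_zero] at hzero
  have hK₀s : Finsupp.single 0 (K₀ 0) = K₀ := by ext; simp
  rw [hK₀s] at hzero
  exact (mul_ne_zero hKne hK₀ne) hzero

end Roth

open Roth in
theorem ROTH (h1 : T_HAS.{u}) (h2 : T_WRO) (h3 : T_BAS.{u}) : T_ROTH.{u} := by
  intro m hm
  induction m, hm using Nat.le_induction with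
  | base =>
    intro ε hε
    refine ⟨ε, hε, ?_⟩
    intro L _ _ ξ r p T hp hr hrr hdeg hT hHt hlog hind
    have hξ : ξ = fun _ => ξ 0 := by
      funext i; rw [Subsingleton.elim i 0]
    have hr' : (fun h => (r h : ℝ)) = fun _ => (r 0 : ℝ) := by
      funext i; rw [Subsingleton.elim i 0]
    rw [hξ, hr'] at hind
    exact Roth.base h3 ε hε L (ξ 0) (r 0) p (T 0) hp (hr 0) (hT 0) (hHt 0) (hlog 0 0) hind
  | succ m hm ih =>
    intro ε hε
    obtain ⟨ω, hω, h⟩ := Roth.step h1 h2 h3 m hm ih (min ε 1) (lt_min hε one_pos)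
      (min_le_right _ _)
    refine ⟨ω, hω, ?_⟩
    intro L _ _ ξ r p T hp hr hrr hdeg hT hHt hlog hind
    exact h L ξ r p T hp hr hrr hdeg hT hHt hlog (IndGE.mono (min_le_left _ _) hind)

end Pool.Agent.H21.UE
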