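import Pool.Agent.H21.UE.Defs

/-!
# Module SMALL (MP_c80192_nt): all hyperplanes of small height coincide.
-/

open MvPolynomial NumberField

namespace Pool.Agent.H21.UE

universe u

namespace Small

variable {L : Type u} [Field L] [NumberField L]

lemma sum_log_nonneg (x : L) (hx : IsIntegral ℤ x) (h0 : x ≠ 0) :
    0 ≤ ∑ v : InfinitePlace L, (v.mult : ℝ) * Real.log (v x) := by
  have h1 : ∑ v : InfinitePlace L, (v.mult : ℝ) * Real.log (v x) =
      Real.log (∏ v : InfinitePlace L, v x ^ v.mult) := by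
    rw [Real.log_prod]
    · apply Finset.sum_congr rfl
      intro v _
      rw [Real.log_pow]
    · intro v _
      exact pow_ne_zero _ (by
        intro h
        exact h0 ((map_eq_zero v).1 h))
  rw [h1, InfinitePlace.prod_eq_abs_norm]
  apply Real.log_nonneg
  have h2 : IsIntegral ℤ (Algebra.norm ℚ x) := Algebra.isIntegral_norm ℚ hx
  obtain ⟨z, hz⟩ := IsIntegrallyClosed.isIntegral_iff.1 h2
  have h3 : Algebra.norm ℚ x ≠ 0 := by
    rw [Ne, Algebra.norm_eq_zero_iff]
    exact h0
  rw [← hz] at h3 ⊢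
  have hz0 : z ≠ 0 := by
    rintro rfl
    simp at h3
  have h4 : (1 : ℤ) ≤ |z| := Int.one_le_abs hz0
  simp only [eq_intCast]
  exact_mod_cast h4

lemma place_pos (v : InfinitePlace L) (x : L) (h0 : x ≠ 0) : 0 < v x :=
  lt_of_le_of_ne (apply_nonneg v x) (fun h => h0 ((map_eq_zero v).1 h.symm))

lemma log_lower (x : L) (hx : IsIntegral ℤ x) (h0 : x ≠ 0) (S : ℝ) (hS1 : 1 ≤ S)
    (hS : ∀ v : InfinitePlace L, v x ≤ S) (v : InfinitePlace L) :
    -((Module.finrank ℚ L : ℝ) * Real.log S) ≤ Real.log (v x) := by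
  classical
  have h1 := sum_log_nonneg x hx h0
  have hlS : 0 ≤ Real.log S := Real.log_nonneg hS1
  have hD : (Module.finrank ℚ L : ℝ) = ∑ w : InfinitePlace L, (w.mult : ℝ) := by
    rw [← InfinitePlace.sum_mult_eq]; push_cast; rfl
  rw [← Finset.add_sum_erase _ _ (Finset.mem_univ v)] at h1
  have h2 : ∑ w ∈ Finset.univ.erase v, (w.mult : ℝ) * Real.log (w x) ≤
      ∑ w ∈ Finset.univ.erase v, (w.mult : ℝ) * Real.log S := by
    apply Finset.sum_le_sum
    intro w _
    apply mul_le_mul_of_nonneg_left _ (Nat.cast_nonneg _)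
    exact Real.log_le_log (place_pos w x h0) (hS w)
  have h3 : ∑ w ∈ Finset.univ.erase v, (w.mult : ℝ) * Real.log S ≤
      (Module.finrank ℚ L : ℝ) * Real.log S := by
    rw [hD, Finset.sum_mul, ← Finset.add_sum_erase _ _ (Finset.mem_univ v)]
    have : 0 ≤ (v.mult : ℝ) * Real.log S := mul_nonneg (Nat.cast_nonneg _) hlS
    linarith
  have hm : (1 : ℝ) ≤ v.mult := InfinitePlace.one_le_mult
  rcases le_or_gt 0 (Real.log (v x)) with h | h
  · have : 0 ≤ (Module.finrank ℚ L : ℝ) * Real.log S := mul_nonneg (Nat.cast_nonneg _) hlS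
    linarith
  · have : (v.mult : ℝ) * Real.log (v x) ≤ Real.log (v x) := by nlinarith
    linarith

variable {ι : Type} [Fintype ι] [DecidableEq ι]

/-- the coefficients of `det(B_v) M` in terms of the linear forms, at the place `v` -/
noncomputable def Ac (B : InfinitePlace L → Matrix ι ι ℤ) (M : ι → L) (v : InfinitePlace L)
    (i : ι) : L := ∑ j, ((B v).adjugate j i : L) * M j

lemma Ac_integral (B : InfinitePlace L → Matrix ι ι ℤ) (M : ι → L)
    (hM : ∀ j, IsIntegral ℤ (M j)) (v : InfinitePlace L) (i : ι) : IsIntegral ℤ (Ac B M v i) := by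
  unfold Ac
  apply IsIntegral.sum
  intro j _
  apply IsIntegral.mul _ (hM j)
  exact isIntegral_algebraMap (R := ℤ) (A := L) (x := (B v).adjugate j i)

lemma place_int (v : InfinitePlace L) (z : ℤ) : v ((z : ℤ) : L) = |(z : ℝ)| := by
  rw [← InfinitePlace.norm_embedding_eq, map_intCast, Complex.norm_intCast]

lemma place_sum_le (v : InfinitePlace L) (f : ι → L) : v (∑ i, f i) ≤ ∑ i, v (f i) := by
  simp only [← InfinitePlace.norm_embedding_eq, map_sum]
  exact norm_sum_le _ _

lemma Ac_bound (B : InfinitePlace L → Matrix ι ι ℤ) (b : ℝ)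
    (hb : ∀ v i j, |(((B v).adjugate i j : ℤ) : ℝ)| ≤ b) (M : ι → L) (T : ℝ)
    (hT : ∀ (v : InfinitePlace L) j, v (M j) ≤ T)
    (v v' : InfinitePlace L) (i : ι) : v' (Ac B M v i) ≤ b * Fintype.card ι * T := by
  unfold Ac
  refine (place_sum_le v' _).trans ?_
  calc ∑ j, v' (((B v).adjugate j i : L) * M j) ≤ ∑ _j : ι, b * T := by
        apply Finset.sum_le_sum
        intro j _
        rw [map_mul, place_int]
        exact mul_le_mul (hb v j i) (hT v' j) (apply_nonneg _ _)
          ((abs_nonneg _).trans (hb v j i))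
    _ = b * Fintype.card ι * T := by
        rw [Finset.sum_const, Finset.card_univ, nsmul_eq_mul]; ring

lemma Ac_form (B : InfinitePlace L → Matrix ι ι ℤ) (M : ι → L) (v : InfinitePlace L)
    (x : ι → L) : (((B v).det : ℤ) : ℂ) * v.embedding (∑ j, M j * x j) =
      ∑ i, v.embedding (Ac B M v i) * lf B v i x := by
  unfold Ac lf
  simp only [map_sum, map_mul, map_intCast]
  set m : ι → ℂ := fun j => v.embedding (M j)
  set y : ι → ℂ := fun j => v.embedding (x j)
  have h0 : ∑ i, (∑ j', (((B v).adjugate j' i : ℤ) : ℂ) * m j') *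
      (∑ j, ((B v i j : ℤ) : ℂ) * y j) =
      ∑ j', ∑ j, ∑ i, (((B v).adjugate j' i : ℤ) : ℂ) * m j' * (((B v i j : ℤ) : ℂ) * y j) := by
    calc ∑ i, (∑ j', (((B v).adjugate j' i : ℤ) : ℂ) * m j') *
      (∑ j, ((B v i j : ℤ) : ℂ) * y j)
        = ∑ i, ∑ j', ∑ j, (((B v).adjugate j' i : ℤ) : ℂ) * m j' *
            (((B v i j : ℤ) : ℂ) * y j) := by
          simp_rw [Finset.sum_mul_sum]
      _ = ∑ j', ∑ i, ∑ j, (((B v).adjugate j' i : ℤ) : ℂ) * m j' *
            (((B v i j : ℤ) : ℂ) * y j) := Finset.sum_comm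
      _ = _ := Finset.sum_congr rfl fun _ _ => Finset.sum_comm
  rw [h0, Finset.mul_sum]
  apply Finset.sum_congr rfl
  intro j' _
  have h2 : ∀ j, ∑ i, (((B v).adjugate j' i : ℤ) : ℂ) * m j' * (((B v i j : ℤ) : ℂ) * y j) =
      ((((B v).adjugate * B v) j' j : ℤ) : ℂ) * (m j' * y j) := by
    intro j
    rw [Matrix.mul_apply]
    push_cast
    rw [Finset.sum_mul]
    apply Finset.sum_congr rfl
    intro i _
    ring
  simp only [h2, Matrix.adjugate_mul, Matrix.smul_apply, smul_eq_mul]
  rw [Finset.sum_eq_single j']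
  · simp [m, y]
  · intro b _ hb
    rw [Matrix.one_apply_ne hb.symm]
    simp
  · intro h; exact absurd (Finset.mem_univ _) h

/-- the choice of the index attaining `m_v` -/
lemma exists_mv (B : InfinitePlace L → Matrix ι ι ℤ) (hB : ∀ v, (B v).det ≠ 0)
    (c : InfinitePlace L → ι → ℝ) (M : ι → L) (j₀ : ι) (hM : M j₀ ≠ 0) (v : InfinitePlace L) :
    ∃ i, Ac B M v i ≠ 0 ∧ ∀ i', Ac B M v i' ≠ 0 → c v i' ≤ c v i := by
  classical
  have h1 : ∃ i, Ac B M v i ≠ 0 := by
    by_contra hcon
    push Not at hcon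
    have h2 := Ac_form B M v (Pi.single j₀ 1)
    simp only [hcon, map_zero, zero_mul, Finset.sum_const_zero] at h2
    have h3 : ∑ j, M j * (Pi.single j₀ (1 : L) : ι → L) j = M j₀ := by
      simp [Pi.single_apply]
    rw [h3] at h2
    rcases mul_eq_zero.1 h2 with h | h
    · exact hB v (by exact_mod_cast h)
    · exact hM ((map_eq_zero _).1 h)
  obtain ⟨i₀, hi₀⟩ := h1
  obtain ⟨i, hi, hmax⟩ := Finset.exists_max_image
    (Finset.univ.filter fun i => Ac B M v i ≠ 0) (c v)
    ⟨i₀, Finset.mem_filter.2 ⟨Finset.mem_univ _, hi₀⟩⟩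
  refine ⟨i, (Finset.mem_filter.1 hi).2, fun i' hi' => ?_⟩
  exact hmax i' (Finset.mem_filter.2 ⟨Finset.mem_univ _, hi'⟩)

lemma one_le_det (B : InfinitePlace L → Matrix ι ι ℤ) (hB : ∀ v, (B v).det ≠ 0)
    (v : InfinitePlace L) : 1 ≤ ‖(((B v).det : ℤ) : ℂ)‖ := by
  rw [Complex.norm_intCast]
  have : (1 : ℤ) ≤ |(B v).det| := Int.one_le_abs (hB v)
  exact_mod_cast this

/-- upper bound for the value of the form at a small vector -/
lemma ineq2 (B : InfinitePlace L → Matrix ι ι ℤ) (hB : ∀ v, (B v).det ≠ 0)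
    (c : InfinitePlace L → ι → ℝ) (δ : ℝ) (M : ι → L) (Q S : ℝ) (hQ : 1 ≤ Q) (hS : 1 ≤ S)
    (hAS : ∀ (v v' : InfinitePlace L) i, v' (Ac B M v i) ≤ S) (y : ι → L) (hy : y ∈ SQ B c δ Q)
    (hMy : ∑ j, M j * y j ≠ 0) (v : InfinitePlace L) (i : ι)
    (hi : ∀ i', Ac B M v i' ≠ 0 → c v i' ≤ c v i) :
    Real.log (v (∑ j, M j * y j)) ≤
      Real.log (Fintype.card ι) + Real.log S + (c v i - δ) * Real.log Q := by
  have hQ0 : 0 < Q := by linarith
  have hn : (1 : ℝ) ≤ Fintype.card ι := by
    have : 0 < Fintype.card ι := Fintype.card_pos_iff.2 ⟨i⟩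
    exact_mod_cast this
  have h1 : v (∑ j, M j * y j) ≤ Fintype.card ι * (S * Q ^ (c v i - δ)) := by
    calc v (∑ j, M j * y j) = ‖v.embedding (∑ j, M j * y j)‖ :=
          (InfinitePlace.norm_embedding_eq v _).symm
      _ ≤ ‖(((B v).det : ℤ) : ℂ)‖ * ‖v.embedding (∑ j, M j * y j)‖ :=
          le_mul_of_one_le_left (norm_nonneg _) (one_le_det B hB v)
      _ = ‖∑ i, v.embedding (Ac B M v i) * lf B v i y‖ := by rw [← norm_mul, Ac_form]
      _ ≤ ∑ i, ‖v.embedding (Ac B M v i) * lf B v i y‖ := norm_sum_le _ _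
      _ ≤ ∑ _i : ι, S * Q ^ (c v i - δ) := by
          apply Finset.sum_le_sum
          intro i' _
          rw [norm_mul, InfinitePlace.norm_embedding_eq]
          by_cases h : Ac B M v i' = 0
          · rw [h, map_zero, zero_mul]
            positivity
          · apply mul_le_mul (hAS v v i') _ (norm_nonneg _) (by linarith)
            refine (hy.2 v i').trans ?_
            apply Real.rpow_le_rpow_of_exponent_le hQ
            linarith [hi i' h]
      _ = Fintype.card ι * (S * Q ^ (c v i - δ)) := by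
          rw [Finset.sum_const, Finset.card_univ, nsmul_eq_mul]
  have h2 := Real.log_le_log (place_pos v _ hMy) h1
  rw [Real.log_mul (by linarith) (by positivity), Real.log_mul (by linarith) (by positivity),
    Real.log_rpow hQ0] at h2
  linarith

/-- the determinant inequality -/
lemma ineq1 (B : InfinitePlace L → Matrix ι ι ℤ) (hB : ∀ v, (B v).det ≠ 0)
    (c : InfinitePlace L → ι → ℝ) (δ : ℝ) (M : ι → L) (Q S T : ℝ) (hQ : 1 ≤ Q) (hS : 1 ≤ S)
    (hT : 1 ≤ T) (hM : ∀ j, IsIntegral ℤ (M j)) (hMT : ∀ (v : InfinitePlace L) j, v (M j) ≤ T)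
    (hAS : ∀ (v v' : InfinitePlace L) i, v' (Ac B M v i) ≤ S)
    (j₀ : ι) (hM0 : M j₀ ≠ 0) (Y : Matrix ι ι L) (hY : Y.det ≠ 0)
    (hY0 : ∀ j, Y j₀ j = (Pi.single j₀ (1 : L) : ι → L) j)
    (hYS : ∀ l, l ≠ j₀ → Y l ∈ SQ B c δ Q ∧ ∑ j, M j * Y l j = 0) (v : InfinitePlace L) (i : ι)
    (hi : Ac B M v i ≠ 0) :
    Real.log (v Y.det) ≤ (Module.finrank ℚ L : ℝ) * Real.log S +
      Real.log ((Fintype.card ι).factorial) + Real.log T +
      ((∑ i', c v i') - c v i - (Fintype.card ι - 1) * δ) * Real.log Q := by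
  classical
  have hQ0 : 0 < Q := by linarith
  set G : Matrix ι ι ℂ := Matrix.of fun l i => lf B v i (Y l) with hG
  have hGdet : G.det = v.embedding Y.det * (((B v).det : ℤ) : ℂ) := by
    have h1 : G = (v.embedding.mapMatrix Y) * ((Int.castRingHom ℂ).mapMatrix (B v)).transpose := by
      ext l i
      rw [Matrix.mul_apply, hG, Matrix.of_apply, lf]
      apply Finset.sum_congr rfl
      intro j _
      simp [mul_comm]
    rw [h1, Matrix.det_mul, Matrix.det_transpose, ← RingHom.map_det, ← RingHom.map_det]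
    rfl
  set α : ι → ℂ := fun i => v.embedding (Ac B M v i) with hα
  have hGα : G.mulVec α = fun l => (((B v).det : ℤ) : ℂ) * v.embedding (∑ j, M j * Y l j) := by
    funext l
    rw [Ac_form, Matrix.mulVec, dotProduct]
    apply Finset.sum_congr rfl
    intro i _
    rw [mul_comm]
    rfl
  -- Cramer's rule
  have hcr : G.det * α i = (G.updateCol i (G.mulVec α)).det := by
    rw [← Matrix.cramer_apply, Matrix.cramer_eq_adjugate_mulVec, Matrix.mulVec_mulVec,
      Matrix.adjugate_mul, Matrix.smul_mulVec, Matrix.one_mulVec]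
    rfl
  have hvec : G.mulVec α = (((B v).det : ℤ) : ℂ) • (Pi.single j₀ (v.embedding (M j₀)) : ι → ℂ) := by
    rw [hGα]
    funext l
    rw [Pi.smul_apply, smul_eq_mul]
    congr 1
    by_cases hl : l = j₀
    · subst hl
      rw [Pi.single_eq_same]
      congr 1
      simp only [hY0]
      simp [Pi.single_apply]
    · rw [Pi.single_eq_of_ne hl, (hYS l hl).2, map_zero]
  rw [hvec, Matrix.det_updateCol_smul, hGdet] at hcr
  have hdet0 : (((B v).det : ℤ) : ℂ) ≠ 0 := by exact_mod_cast hB v
  have hcr2 : v.embedding Y.det * α i =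
      (G.updateCol i (Pi.single j₀ (v.embedding (M j₀)))).det := by
    apply mul_left_cancel₀ hdet0
    rw [← hcr]
    ring
  -- the bound
  have hbd : ‖(G.updateCol i (Pi.single j₀ (v.embedding (M j₀)))).det‖ ≤
      (Fintype.card ι).factorial * (T * ∏ i' ∈ Finset.univ.erase i, Q ^ (c v i' - δ)) := by
    rw [Matrix.det_apply]
    refine (norm_sum_le _ _).trans ?_
    have h1 : ∀ σ : Equiv.Perm ι, ‖Equiv.Perm.sign σ • ∏ i',
        (G.updateCol i (Pi.single j₀ (v.embedding (M j₀)))) (σ i') i'‖ ≤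
        T * ∏ i' ∈ Finset.univ.erase i, Q ^ (c v i' - δ) := by
      intro σ
      have h2 : ‖Equiv.Perm.sign σ • ∏ i',
          (G.updateCol i (Pi.single j₀ (v.embedding (M j₀)))) (σ i') i'‖ =
          ‖∏ i', (G.updateCol i (Pi.single j₀ (v.embedding (M j₀)))) (σ i') i'‖ := by
        rcases Int.units_eq_one_or (Equiv.Perm.sign σ) with h | h
        · rw [h, one_smul]
        · rw [h, Units.neg_smul, one_smul, norm_neg]
      rw [h2, ← Finset.mul_prod_erase _ _ (Finset.mem_univ i), norm_mul]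
      by_cases hσ : σ i = j₀
      · rw [hσ, Matrix.updateCol_self, Pi.single_eq_same, norm_prod,
          InfinitePlace.norm_embedding_eq]
        apply mul_le_mul (hMT v j₀) _ (Finset.prod_nonneg fun _ _ => norm_nonneg _) (by linarith)
        apply Finset.prod_le_prod (fun _ _ => norm_nonneg _)
        intro i' hi'
        have hne := Finset.ne_of_mem_erase hi'
        rw [Matrix.updateCol_ne hne, hG, Matrix.of_apply]
        have hσ' : σ i' ≠ j₀ := by
          intro h
          rw [← hσ] at h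
          exact hne (σ.injective h)
        exact (hYS _ hσ').1.2 v i'
      · rw [Matrix.updateCol_self, Pi.single_eq_of_ne hσ, norm_zero, zero_mul]
        apply mul_nonneg (by linarith)
        exact Finset.prod_nonneg fun _ _ => (Real.rpow_pos_of_pos hQ0 _).le
    refine (Finset.sum_le_sum fun σ _ => h1 σ).trans ?_
    rw [Finset.sum_const, Finset.card_univ, Fintype.card_perm, nsmul_eq_mul]
  have hlow := log_lower (Ac B M v i) (Ac_integral B M hM v i) hi S hS (fun v' => hAS v v' i) v
  have h5 : v Y.det * v (Ac B M v i) ≤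
      (Fintype.card ι).factorial * (T * ∏ i' ∈ Finset.univ.erase i, Q ^ (c v i' - δ)) := by
    rw [← InfinitePlace.norm_embedding_eq, ← InfinitePlace.norm_embedding_eq v (Ac B M v i),
      ← norm_mul]
    rw [hα] at hcr2
    rw [hcr2]
    exact hbd
  have hprod : ∏ i' ∈ Finset.univ.erase i, Q ^ (c v i' - δ) =
      Q ^ ((∑ i', c v i') - c v i - (Fintype.card ι - 1) * δ) := by
    rw [← Real.rpow_sum_of_pos hQ0]
    congr 1
    rw [Finset.sum_sub_distrib, Finset.sum_const, Finset.card_erase_of_mem (Finset.mem_univ i),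
      Finset.card_univ, nsmul_eq_mul]
    have h6 := Finset.add_sum_erase Finset.univ (c v) (Finset.mem_univ i)
    have h7 : 1 ≤ Fintype.card ι := Fintype.card_pos_iff.2 ⟨i⟩
    rw [Nat.cast_sub h7]
    push_cast
    linarith
  rw [hprod] at h5
  have h8 := Real.log_le_log (mul_pos (place_pos v _ hY) (place_pos v _ hi)) h5
  have hf : (0 : ℝ) < (Fintype.card ι).factorial := by exact_mod_cast Nat.factorial_pos _
  rw [Real.log_mul (place_pos v _ hY).ne' (place_pos v _ hi).ne',
    Real.log_mul hf.ne' (by positivity), Real.log_mul (by linarith) (by positivity),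
    Real.log_rpow hQ0] at h8
  linarith

/-- integral multiple of small height -/
lemma exists_M (a : ι → L) (j₀ : ι) (ha : a j₀ ≠ 0) (T : ℝ) (hT : 1 ≤ T)
    (h : ∀ j, Ht (a j / a j₀) T) : ∃ M : ι → L, (∀ j, IsIntegral ℤ (M j)) ∧ M j₀ ≠ 0 ∧
      (∃ s : L, s ≠ 0 ∧ ∀ j, M j = s * a j) ∧
      ∀ (v : InfinitePlace L) j, v (M j) ≤ T ^ Fintype.card ι := by
  classical
  choose d hd0 hdT hdint hdφ using h
  set D : L := ∏ j, ((d j : ℤ) : L) with hD
  have hD0 : D ≠ 0 := by
    rw [hD, Finset.prod_ne_zero_iff]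
    intro j _
    exact_mod_cast hd0 j
  have hsplit : ∀ j, D * (a j / a j₀) =
      (∏ j' ∈ Finset.univ.erase j, ((d j' : ℤ) : L)) * ((d j : L) * (a j / a j₀)) := by
    intro j
    rw [hD, ← Finset.mul_prod_erase _ _ (Finset.mem_univ j)]
    ring
  refine ⟨fun j => D * (a j / a j₀), ?_, ?_, ⟨D / a j₀, div_ne_zero hD0 ha, fun j => by
    simp only; field_simp⟩, ?_⟩
  · intro j
    simp only
    rw [hsplit]
    apply IsIntegral.mul _ (hdint j)
    apply IsIntegral.prod
    intro j' _
    exact isIntegral_algebraMap (R := ℤ) (A := L) (x := d j')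
  · simp only
    rw [div_self ha, mul_one]
    exact hD0
  · intro v j
    simp only
    rw [hsplit, map_mul, map_prod]
    have h1 : ∏ j' ∈ Finset.univ.erase j, v ((d j' : ℤ) : L) ≤
        T ^ (Fintype.card ι - 1) := by
      calc ∏ j' ∈ Finset.univ.erase j, v ((d j' : ℤ) : L)
          ≤ ∏ _j' ∈ Finset.univ.erase j, T := by
            apply Finset.prod_le_prod (fun _ _ => apply_nonneg _ _)
            intro j' _
            rw [place_int]
            exact hdT j'
        _ = _ := by
            rw [Finset.prod_const, Finset.card_erase_of_mem (Finset.mem_univ j),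
              Finset.card_univ]
    have h2 : v ((d j : L) * (a j / a j₀)) ≤ T := by
      rw [← InfinitePlace.norm_embedding_eq]
      exact hdφ j v.embedding
    have h3 : 0 < Fintype.card ι := Fintype.card_pos_iff.2 ⟨j⟩
    calc (∏ j' ∈ Finset.univ.erase j, v ((d j' : ℤ) : L)) * v ((d j : L) * (a j / a j₀))
        ≤ T ^ (Fintype.card ι - 1) * T := by
          apply mul_le_mul h1 h2 (apply_nonneg _ _) (by positivity)
      _ = T ^ Fintype.card ι := by
          rw [← pow_succ, Nat.sub_add_cancel h3]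

/-- a matrix of vectors -/
lemma exists_Y (S : Set (ι → L)) (hS : ∀ y ∈ S, ∀ j, IsIntegral ℤ (y j))
    (V : Submodule L (ι → L)) (hV : Module.finrank L V + 1 = Fintype.card ι)
    (hVS : V = Submodule.span L S) (M : ι → L) (j₀ : ι) (hM0 : M j₀ ≠ 0)
    (hMV : ∀ x ∈ V, ∑ j, M j * x j = 0) :
    ∃ Y : Matrix ι ι L, Y.det ≠ 0 ∧ IsIntegral ℤ Y.det ∧
      (∀ j, Y j₀ j = (Pi.single j₀ (1 : L) : ι → L) j) ∧
      (∀ l, l ≠ j₀ → Y l ∈ S ∧ ∑ j, M j * Y l j = 0) := by
  classical
  subst hVS
  obtain ⟨f, hfS, -, hfli⟩ := Submodule.exists_fun_fin_finrank_span_eq L S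
  have hcard : Fintype.card {l : ι // l ≠ j₀} =
      Fintype.card (Fin (Module.finrank L (Submodule.span L S))) := by
    rw [Fintype.card_fin]
    have : Fintype.card {l : ι // l ≠ j₀} = Fintype.card ι - 1 := by
      simp
    omega
  have e : {l : ι // l ≠ j₀} ≃ Fin (Module.finrank L (Submodule.span L S)) :=
    Fintype.equivOfCardEq hcard
  let Yf : ι → ι → L := fun l =>
    if h : l = j₀ then (Pi.single j₀ (1 : L) : ι → L) else f (e ⟨l, h⟩)
  let Y : Matrix ι ι L := Matrix.of Yf
  have hY0 : Y j₀ = (Pi.single j₀ (1 : L) : ι → L) := by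
    change Yf j₀ = _
    simp only [Yf, dite_true]
  have hY1 : ∀ l (h : l ≠ j₀), Y l = f (e ⟨l, h⟩) := by
    intro l h
    change Yf l = _
    simp only [Yf, dif_neg h]
  have hYS : ∀ l, l ≠ j₀ → Y l ∈ S := by
    intro l hl
    rw [hY1 l hl]
    exact hfS _
  have hYM : ∀ l, l ≠ j₀ → ∑ j, M j * Y l j = 0 := fun l hl =>
    hMV _ (Submodule.subset_span (hYS l hl))
  refine ⟨Y, ?_, ?_, fun j => by rw [hY0], fun l hl => ⟨hYS l hl, hYM l hl⟩⟩
  · intro hdet
    obtain ⟨w, hw0, hw⟩ := Matrix.exists_vecMul_eq_zero_iff.2 hdet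
    have h1 : ∀ j, ∑ l, w l * Y l j = 0 := fun j => congrFun hw j
    have h2 : w j₀ * M j₀ = 0 := by
      have h3 : ∑ j, M j * ∑ l, w l * Y l j = 0 := by simp [h1]
      have h4 : ∑ j, M j * ∑ l, w l * Y l j = ∑ l, w l * ∑ j, M j * Y l j := by
        simp only [Finset.mul_sum]
        rw [Finset.sum_comm]
        apply Finset.sum_congr rfl; intro l _
        apply Finset.sum_congr rfl; intro j _
        ring
      rw [h4, Finset.sum_eq_single j₀] at h3
      · rw [hY0] at h3
        simpa [Pi.single_apply] using h3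
      · intro l _ hl
        rw [hYM l hl, mul_zero]
      · intro h; exact absurd (Finset.mem_univ _) h
    have h5 : w j₀ = 0 := by
      rcases mul_eq_zero.1 h2 with h | h
      · exact h
      · exact absurd h hM0
    have h6 : LinearIndependent L (fun l : {l : ι // l ≠ j₀} => f (e l)) :=
      hfli.comp _ e.injective
    have h7 : ∑ l : {l : ι // l ≠ j₀}, w l • f (e l) = 0 := by
      funext j
      have h8 := h1 j
      rw [← Finset.add_sum_erase _ _ (Finset.mem_univ j₀), h5, zero_mul, zero_add] at h8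
      rw [Finset.sum_apply, Pi.zero_apply, ← h8]
      rw [Finset.sum_subtype (Finset.univ.erase j₀) (p := fun l => l ≠ j₀) (by simp)
        (fun l => w l * Y l j) ]
      apply Finset.sum_congr rfl
      intro l _
      rw [hY1 l.1 l.2]
      rfl
    have h9 := Fintype.linearIndependent_iff.1 h6 (fun l => w l) h7
    apply hw0
    funext l
    by_cases hl : l = j₀
    · rw [hl, h5]; rfl
    · exact h9 ⟨l, hl⟩
  · rw [Matrix.det_apply]
    apply IsIntegral.sum
    intro σ _
    rcases Int.units_eq_one_or (Equiv.Perm.sign σ) with h | h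
    · rw [h, one_smul]
      apply IsIntegral.prod
      intro i _
      by_cases hl : σ i = j₀
      · rw [hl, hY0, Pi.single_apply]
        split_ifs
        · exact isIntegral_one
        · exact isIntegral_zero
      · exact hS _ (hYS _ hl) i
    · rw [h, Units.neg_smul, one_smul]
      apply IsIntegral.neg
      apply IsIntegral.prod
      intro i _
      by_cases hl : σ i = j₀
      · rw [hl, hY0, Pi.single_apply]
        split_ifs
        · exact isIntegral_one
        · exact isIntegral_zero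
      · exact hS _ (hYS _ hl) i

end Small

open Pool.Agent.H21.UE.Small in
theorem SMALL : T_SMALL.{u} := by
  intro L _ _ ι _ _ B c δ hB hc hδ
  classical
  -- the constants
  set Dg : ℝ := (Module.finrank ℚ L : ℝ) with hDg
  have hDg1 : 1 ≤ Dg := by
    have : 0 < Module.finrank ℚ L := Module.finrank_pos
    rw [hDg]
    exact_mod_cast this
  have hDsum : Dg = ∑ v : InfinitePlace L, (v.mult : ℝ) := by
    rw [hDg, ← InfinitePlace.sum_mult_eq]; push_cast; rfl
  obtain ⟨b, hb1, hb⟩ : ∃ b : ℝ, 1 ≤ b ∧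
      ∀ v i j, |(((B v).adjugate i j : ℤ) : ℝ)| ≤ b := by
    refine ⟨1 + ∑ v, ∑ i, ∑ j, |(((B v).adjugate i j : ℤ) : ℝ)|, ?_, ?_⟩
    · have : 0 ≤ ∑ v, ∑ i, ∑ j, |(((B v).adjugate i j : ℤ) : ℝ)| :=
        Finset.sum_nonneg fun _ _ => Finset.sum_nonneg fun _ _ => Finset.sum_nonneg fun _ _ =>
          abs_nonneg _
      linarith
    · intro v i j
      have h1 : |(((B v).adjugate i j : ℤ) : ℝ)| ≤ ∑ j, |(((B v).adjugate i j : ℤ) : ℝ)| :=
        Finset.single_le_sum (f := fun j => |(((B v).adjugate i j : ℤ) : ℝ)|)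
          (fun _ _ => abs_nonneg _) (Finset.mem_univ j)
      have h2 : ∑ j, |(((B v).adjugate i j : ℤ) : ℝ)| ≤
          ∑ i, ∑ j, |(((B v).adjugate i j : ℤ) : ℝ)| :=
        Finset.single_le_sum (f := fun i => ∑ j, |(((B v).adjugate i j : ℤ) : ℝ)|)
          (fun _ _ => Finset.sum_nonneg fun _ _ => abs_nonneg _) (Finset.mem_univ i)
      have h3 : ∑ i, ∑ j, |(((B v).adjugate i j : ℤ) : ℝ)| ≤
          ∑ v, ∑ i, ∑ j, |(((B v).adjugate i j : ℤ) : ℝ)| :=
        Finset.single_le_sum (f := fun v => ∑ i, ∑ j, |(((B v).adjugate i j : ℤ) : ℝ)|)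
          (fun _ _ => Finset.sum_nonneg fun _ _ => Finset.sum_nonneg fun _ _ => abs_nonneg _)
          (Finset.mem_univ v)
      linarith
  set n : ℝ := (Fintype.card ι : ℝ) with hn
  have hn0 : 0 ≤ n := Nat.cast_nonneg _
  set lb : ℝ := Real.log (b * n) with hlb
  set C : ℝ := |Real.log n| + |lb| + |Real.log ((Fintype.card ι).factorial)| + Dg * |lb| with hC
  have hC0 : 0 ≤ C := by positivity
  set ε₁ : ℝ := δ / (4 * (2 + Dg)) with hε₁
  have hε₁0 : 0 < ε₁ := by positivity
  set q₀ : ℝ := 1 + 4 * C / δ with hq₀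
  have hq₀1 : 1 ≤ q₀ := by
    have : 0 ≤ 4 * C / δ := by positivity
    linarith
  -- small hyperplanes
  set Sml : ℝ → Submodule L (ι → L) → Prop := fun Q V => Module.finrank L V + 1 = Fintype.card ι ∧
    V = Submodule.span L (SQ B c δ Q) ∧ ∃ a : ι → L, (∀ x ∈ V, ∑ j, a j * x j = 0) ∧
      ∃ j₀, a j₀ ≠ 0 ∧ ∀ j₁, Ht (a j₁ / a j₀) (Q ^ ε₁) with hSml
  have key : ∀ (Q Q' : ℝ) (V V' : Submodule L (ι → L)), Real.exp q₀ ≤ Q' → Q' ≤ Q →
      Sml Q V → Sml Q' V' → V = V' := by
    intro Q Q' V V' hQ' hQQ hV hV'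
    by_contra hne
    obtain ⟨hVf, hVS, -⟩ := hV
    obtain ⟨hVf', hVS', a, haV, j₀, haj, hHt⟩ := hV'
    have hQ'0 : 0 < Q' := lt_of_lt_of_le (Real.exp_pos _) hQ'
    have hq' : q₀ ≤ Real.log Q' := by
      rw [Real.le_log_iff_exp_le hQ'0]; exact hQ'
    have hqq : Real.log Q' ≤ Real.log Q := Real.log_le_log hQ'0 hQQ
    have hQ'1 : 1 ≤ Q' := by
      refine le_trans ?_ hQ'
      exact Real.one_le_exp (by linarith)
    have hQ1 : 1 ≤ Q := by linarith
    set q : ℝ := Real.log Q
    set q' : ℝ := Real.log Q'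
    have hn1 : 1 ≤ n := by
      have : 0 < Fintype.card ι := Fintype.card_pos_iff.2 ⟨j₀⟩
      rw [hn]
      exact_mod_cast this
    have hT1 : 1 ≤ Q' ^ ε₁ := Real.one_le_rpow hQ'1 hε₁0.le
    obtain ⟨M, hMint, hM0, ⟨s, hs0, hsM⟩, hMT⟩ := exists_M a j₀ haj (Q' ^ ε₁) hT1 hHt
    set T : ℝ := (Q' ^ ε₁) ^ Fintype.card ι with hT
    have hT1' : 1 ≤ T := one_le_pow₀ hT1
    have hlogT : Real.log T = n * ε₁ * q' := by
      rw [hT, Real.log_pow, Real.log_rpow hQ'0]
      ring
    set S : ℝ := b * n * T with hS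
    have hbn : 1 ≤ b * n := by nlinarith
    have hS1 : 1 ≤ S := by
      rw [hS]
      nlinarith
    have hlogS : Real.log S = lb + n * ε₁ * q' := by
      rw [hS, Real.log_mul (by linarith) (by linarith), hlogT]
    have hAS : ∀ (v v' : InfinitePlace L) i, v' (Ac B M v i) ≤ S := fun v v' i =>
      Ac_bound B b hb M T hMT v v' i
    have hMV : ∀ x ∈ V', ∑ j, M j * x j = 0 := by
      intro x hx
      have h1 : ∑ j, M j * x j = s * ∑ j, a j * x j := by
        rw [Finset.mul_sum]
        apply Finset.sum_congr rfl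
        intro j _
        rw [hsM]; ring
      rw [h1, haV x hx, mul_zero]
    choose i hi0 himax using exists_mv B hB c M j₀ hM0
    set Xv : ℝ := ∑ v : InfinitePlace L, (v.mult : ℝ) * c v (i v) with hXv
    -- first inequality
    obtain ⟨Y, hYdet, hYint, hY0, hYS⟩ := exists_Y (SQ B c δ Q') (fun y hy => hy.1) V' hVf' hVS'
      M j₀ hM0 hMV
    have I1 : (Xv + (n - 1) * δ * Dg) * q' ≤
        Dg * (Dg * Real.log S + Real.log ((Fintype.card ι).factorial) + Real.log T) := by
      have h1 := sum_log_nonneg Y.det hYint hYdet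
      have h2 : ∑ v : InfinitePlace L, (v.mult : ℝ) * Real.log (v Y.det) ≤
          ∑ v : InfinitePlace L, (v.mult : ℝ) * (Dg * Real.log S +
            Real.log ((Fintype.card ι).factorial) + Real.log T +
            ((∑ i', c v i') - c v (i v) - (n - 1) * δ) * q') := by
        apply Finset.sum_le_sum
        intro v _
        apply mul_le_mul_of_nonneg_left _ (Nat.cast_nonneg _)
        exact ineq1 B hB c δ M Q' S T hQ'1 hS1 hT1' hMint hMT hAS j₀ hM0 Y hYdet hY0 hYS v (i v)
          (hi0 v)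
      have h3 : ∑ v : InfinitePlace L, (v.mult : ℝ) * (Dg * Real.log S +
            Real.log ((Fintype.card ι).factorial) + Real.log T +
            ((∑ i', c v i') - c v (i v) - (n - 1) * δ) * q') =
          Dg * (Dg * Real.log S + Real.log ((Fintype.card ι).factorial) + Real.log T) +
            ((∑ v : InfinitePlace L, ∑ i', (v.mult : ℝ) * c v i') - Xv
              - (n - 1) * δ * Dg) * q' := by
        rw [hXv, hDsum, ← hDsum]
        simp only [mul_add, mul_sub, add_mul, sub_mul, Finset.sum_add_distrib,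
          Finset.sum_sub_distrib, ← Finset.mul_sum]
        have h4 : ∀ x : ℝ, ∑ v : InfinitePlace L, (v.mult : ℝ) * x = Dg * x := by
          intro x
          rw [← Finset.sum_mul, ← hDsum]
        simp only [h4]
        have h5 : ∑ v : InfinitePlace L, (v.mult : ℝ) * ((∑ i', c v i') * q') =
            (∑ v : InfinitePlace L, (v.mult : ℝ) * ∑ i', c v i') * q' := by
          rw [Finset.sum_mul]
          apply Finset.sum_congr rfl; intro v _; ring
        have h6 : ∑ v : InfinitePlace L, (v.mult : ℝ) * (c v (i v) * q') =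
            (∑ v : InfinitePlace L, (v.mult : ℝ) * c v (i v)) * q' := by
          rw [Finset.sum_mul]
          apply Finset.sum_congr rfl; intro v _; ring
        rw [h5, h6]
        ring
      rw [h3, hc] at h2
      linarith
    -- second inequality
    have hex : ∃ y ∈ SQ B c δ Q, ∑ j, M j * y j ≠ 0 := by
      by_contra hcon
      push Not at hcon
      -- then `V ≤ ker M = V'`
      let φ : (ι → L) →ₗ[L] L :=
        { toFun := fun x => ∑ j, M j * x j
          map_add' := fun x y => by simp [mul_add, Finset.sum_add_distrib]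
          map_smul' := fun r x => by
            simp only [Pi.smul_apply, smul_eq_mul, RingHom.id_apply, Finset.mul_sum]
            apply Finset.sum_congr rfl; intro j _; ring }
      have hφ0 : φ ≠ 0 := by
        intro h
        have h1 : φ (Pi.single j₀ 1) = 0 := by rw [h]; rfl
        have h2 : φ (Pi.single j₀ 1) = M j₀ := by
          simp [φ, Pi.single_apply]
        rw [h2] at h1
        exact hM0 h1
      have hker : Module.finrank L (LinearMap.ker φ) + 1 = Fintype.card ι := by
        have h1 := LinearMap.finrank_range_add_finrank_ker φ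
        rw [Module.finrank_fintype_fun_eq_card] at h1
        have h2 : Module.finrank L (LinearMap.range φ) = 1 := by
          rw [LinearMap.range_eq_top.2 (LinearMap.surjective hφ0), finrank_top,
            Module.finrank_self]
        omega
      have hVk : V ≤ LinearMap.ker φ := by
        rw [hVS]
        apply Submodule.span_le.2
        intro y hy
        exact hcon y hy
      have hVk' : V' ≤ LinearMap.ker φ := fun x hx => hMV x hx
      have e1 : V = LinearMap.ker φ := Submodule.eq_of_le_of_finrank_eq hVk (by omega)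
      have e2 : V' = LinearMap.ker φ := Submodule.eq_of_le_of_finrank_eq hVk' (by omega)
      exact hne (e1.trans e2.symm)
    obtain ⟨y, hy, hMy⟩ := hex
    have hMyint : IsIntegral ℤ (∑ j, M j * y j) := by
      apply IsIntegral.sum
      intro j _
      exact (hMint j).mul (hy.1 j)
    have I2 : 0 ≤ Dg * (Real.log n + Real.log S) + (Xv - δ * Dg) * q := by
      have h1 := sum_log_nonneg (∑ j, M j * y j) hMyint hMy
      have h2 : ∑ v : InfinitePlace L, (v.mult : ℝ) * Real.log (v (∑ j, M j * y j)) ≤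
          ∑ v : InfinitePlace L, (v.mult : ℝ) * (Real.log n + Real.log S +
            (c v (i v) - δ) * q) := by
        apply Finset.sum_le_sum
        intro v _
        apply mul_le_mul_of_nonneg_left _ (Nat.cast_nonneg _)
        exact ineq2 B hB c δ M Q S hQ1 hS1 hAS y hy hMy v (i v) (himax v)
      have h3 : ∑ v : InfinitePlace L, (v.mult : ℝ) * (Real.log n + Real.log S +
            (c v (i v) - δ) * q) = Dg * (Real.log n + Real.log S) + (Xv - δ * Dg) * q := by
        simp only [mul_add, mul_sub, sub_mul, Finset.sum_add_distrib,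
          Finset.sum_sub_distrib]
        have h4 : ∀ x : ℝ, ∑ v : InfinitePlace L, (v.mult : ℝ) * x = Dg * x := by
          intro x
          rw [← Finset.sum_mul, ← hDsum]
        simp only [h4]
        have h6 : ∑ v : InfinitePlace L, (v.mult : ℝ) * (c v (i v) * q) =
            (∑ v : InfinitePlace L, (v.mult : ℝ) * c v (i v)) * q := by
          rw [Finset.sum_mul]
          apply Finset.sum_congr rfl; intro v _; ring
        rw [h6, ← hXv]
        ring
      rw [h3] at h2
      linarith
    -- combination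
    rw [hlogS, hlogT] at I1
    rw [hlogS] at I2
    have hq'0 : 0 < q' := by linarith
    have hq0 : 0 < q := by linarith
    set F : ℝ := Real.log ((Fintype.card ι).factorial) with hF
    have hu : 1 ≤ q / q' := by rw [one_le_div hq'0]; exact hqq
    have hI1' : (Xv + (n - 1) * δ * Dg) * q ≤
        Dg * ((Dg * lb + F) * (q / q') + (1 + Dg) * n * ε₁ * q) := by
      have h1 := mul_le_mul_of_nonneg_right I1 (by linarith : 0 ≤ q / q')
      have h2 : (Xv + (n - 1) * δ * Dg) * q' * (q / q') = (Xv + (n - 1) * δ * Dg) * q := by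
        field_simp
      have h3 : Dg * (Dg * (lb + n * ε₁ * q') + F + n * ε₁ * q') * (q / q') =
          Dg * ((Dg * lb + F) * (q / q') + (1 + Dg) * n * ε₁ * q) := by
        field_simp
        ring
      rw [h2, h3] at h1
      exact h1
    have hI2' : 0 ≤ Dg * (Real.log n + lb + n * ε₁ * q) + (Xv - δ * Dg) * q := by
      refine I2.trans ?_
      have h1 : n * ε₁ * q' ≤ n * ε₁ * q := mul_le_mul_of_nonneg_left hqq (by positivity)
      have h2 : Dg * (Real.log n + (lb + n * ε₁ * q')) ≤
          Dg * (Real.log n + lb + n * ε₁ * q) := by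
        apply mul_le_mul_of_nonneg_left _ (by linarith)
        linarith
      linarith
    have hsum : n * δ * Dg * q ≤ Dg * ((Dg * lb + F) * (q / q') + (1 + Dg) * n * ε₁ * q) +
        Dg * (Real.log n + lb + n * ε₁ * q) := by
      have h1 := add_le_add hI1' hI2'
      have h2 : n * δ * Dg * q = (Xv + (n - 1) * δ * Dg) * q - (Xv - δ * Dg) * q := by ring
      rw [h2]
      linarith
    have hdiv : n * δ * q ≤ (Dg * lb + F) * (q / q') + (Real.log n + lb) +
        (2 + Dg) * n * ε₁ * q := by
      have h1 : Dg * (n * δ * q) ≤ Dg * ((Dg * lb + F) * (q / q') + (Real.log n + lb) +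
        (2 + Dg) * n * ε₁ * q) := by
        calc Dg * (n * δ * q) = n * δ * Dg * q := by ring
          _ ≤ _ := hsum
          _ = _ := by ring
      exact le_of_mul_le_mul_left h1 (by linarith)
    have hεn : (2 + Dg) * n * ε₁ = n * δ / 4 := by
      rw [hε₁]
      field_simp
    rw [hεn] at hdiv
    have hCb : (Dg * lb + F) * (q / q') + (Real.log n + lb) ≤ C * (q / q') := by
      have h1 : Dg * lb + F ≤ Dg * |lb| + |F| := by
        have := le_abs_self lb
        have h2 := le_abs_self F
        have h3 : Dg * lb ≤ Dg * |lb| := mul_le_mul_of_nonneg_left this (by linarith)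
        linarith
      have h4 : Real.log n + lb ≤ (|Real.log n| + |lb|) * (q / q') := by
        have h5 := le_abs_self lb
        have h6 := le_abs_self (Real.log n)
        have h7 : |Real.log n| + |lb| ≤ (|Real.log n| + |lb|) * (q / q') :=
          le_mul_of_one_le_right (by positivity) hu
        linarith
      have h8 := mul_le_mul_of_nonneg_right h1 (by linarith : 0 ≤ q / q')
      rw [hC]
      calc (Dg * lb + F) * (q / q') + (Real.log n + lb)
          ≤ (Dg * |lb| + |F|) * (q / q') + (|Real.log n| + |lb|) * (q / q') := add_le_add h8 h4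
        _ = _ := by ring
    have hCq : C * (q / q') ≤ δ / 4 * q := by
      have h1 : C ≤ δ / 4 * q' := by
        have h2 : 4 * C / δ ≤ q' := by linarith
        rw [div_le_iff₀ hδ] at h2
        linarith
      calc C * (q / q') ≤ (δ / 4 * q') * (q / q') :=
            mul_le_mul_of_nonneg_right h1 (by linarith)
        _ = δ / 4 * q := by field_simp
    have hfin : n * δ * q ≤ δ / 4 * q + n * δ / 4 * q := by linarith
    have h1 : 0 < δ * q := by positivity
    have h2 : δ * q ≤ n * (δ * q) := le_mul_of_one_le_left h1.le hn1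
    have h3 : n * δ * q = n * (δ * q) := by ring
    have h4 : δ / 4 * q + n * δ / 4 * q = (δ * q) / 4 + n * (δ * q) / 4 := by ring
    rw [h3, h4] at hfin
    linarith
  -- the common hyperplane
  by_cases hex : ∃ (Q : ℝ) (V : Submodule L (ι → L)), Real.exp q₀ ≤ Q ∧ Sml Q V
  · obtain ⟨Q₁, V₁, hQ₁, hV₁⟩ := hex
    refine ⟨ε₁, Real.exp q₀, V₁, hε₁0, Real.one_le_exp (by linarith), ?_⟩
    intro Q hQ V hV hVS hne a ha j₀ haj
    by_contra hcon
    push Not at hcon
    have hS : Sml Q V := ⟨hV, hVS, a, ha, j₀, haj, hcon⟩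
    rcases le_total Q Q₁ with h | h
    · exact hne (key Q₁ Q V₁ V hQ h hV₁ hS).symm
    · exact hne (key Q Q₁ V V₁ hQ₁ h hS hV₁)
  · push Not at hex
    refine ⟨ε₁, Real.exp q₀, ⊥, hε₁0, Real.one_le_exp (by linarith), ?_⟩
    intro Q hQ V hV hVS hne a ha j₀ haj
    by_contra hcon
    push Not at hcon
    exact hex Q V hQ ⟨hV, hVS, a, ha, j₀, haj, hcon⟩

end Pool.Agent.H21.UE
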