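import Pool.Agent.H80.UE.RothA

/-!
# Module SPEC (MP_c80192_nt): specialisation to one variable in each block.
-/

open MvPolynomial NumberField

namespace Pool.Agent.H21.UE

universe u

namespace Spec

variable {m : ℕ} {ι : Type} [Fintype ι] [DecidableEq ι]

/-- the other variables -/
def Oth (j₀ j₁ : Fin m → ι) (q : Fin m × ι) : Prop := q.2 ≠ j₀ q.1 ∧ q.2 ≠ j₁ q.1

instance (j₀ j₁ : Fin m → ι) : DecidablePred (Oth j₀ j₁) := fun q => by
  unfold Oth; infer_instance

/-- exponents in the variables `j₀` -/
noncomputable def ex (j₀ : Fin m → ι) (J : Fin m × ι →₀ ℕ) : Fin m →₀ ℕ :=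
  Finsupp.equivFunOnFinite.symm fun h => J (h, j₀ h)

omit [Fintype ι] [DecidableEq ι] in
@[simp] lemma ex_apply (j₀ : Fin m → ι) (J : Fin m × ι →₀ ℕ) (h : Fin m) :
    ex j₀ J h = J (h, j₀ h) := rfl

/-- the specialised polynomial -/
noncomputable def pol (j₀ j₁ : Fin m → ι) (e : Fin m × ι →₀ ℕ) (P : MvPolynomial (Fin m × ι) ℤ) :
    MvPolynomial (Fin m) ℤ :=
  ∑ J ∈ P.support with J.filter (Oth j₀ j₁) = e, monomial (ex j₀ J) (P.coeff J)

lemma ex_inj (j₀ j₁ : Fin m → ι) (r : Fin m → ℕ)
    (J J' : Fin m × ι →₀ ℕ) (hJ : ∀ h, ∑ i, J (h, i) = r h) (hJ' : ∀ h, ∑ i, J' (h, i) = r h)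
    (hO : J.filter (Oth j₀ j₁) = J'.filter (Oth j₀ j₁)) (hex : ex j₀ J = ex j₀ J') : J = J' := by
  classical
  have h1 : ∀ h i, i ≠ j₁ h → J (h, i) = J' (h, i) := by
    intro h i hi
    by_cases hi0 : i = j₀ h
    · subst hi0
      exact DFunLike.congr_fun hex h
    · have h2 := DFunLike.congr_fun hO (h, i)
      rw [Finsupp.filter_apply_pos _ _ (show Oth j₀ j₁ (h, i) from ⟨hi0, hi⟩),
        Finsupp.filter_apply_pos _ _ (show Oth j₀ j₁ (h, i) from ⟨hi0, hi⟩)] at h2
      exact h2
  ext ⟨h, i⟩
  by_cases hi : i = j₁ h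
  · subst hi
    have h2 := hJ h
    have h3 := hJ' h
    rw [← Finset.add_sum_erase _ _ (Finset.mem_univ (j₁ h))] at h2 h3
    have h4 : ∑ i ∈ Finset.univ.erase (j₁ h), J (h, i) =
        ∑ i ∈ Finset.univ.erase (j₁ h), J' (h, i) :=
      Finset.sum_congr rfl fun i hi => h1 h i (Finset.ne_of_mem_erase hi)
    omega
  · exact h1 h i hi

end Spec

open Spec in
theorem SPEC : T_SPEC.{u} := by
  intro L _ _ m ι _ _ j₀ j₁ r a z P θ hj hr hP hhom ha hz hza hind
  classical
  -- the exponent `e`
  obtain ⟨Js, hJs, hmin⟩ := Finset.exists_min_image P.support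
    (fun J => (J.filter (Oth j₀ j₁)).degree) (by
      rw [Finset.nonempty_iff_ne_empty, Ne, MvPolynomial.support_eq_empty]
      exact hP)
  set e : Fin m × ι →₀ ℕ := Js.filter (Oth j₀ j₁) with he
  have hle : ∀ J ∈ P.support, J.filter (Oth j₀ j₁) ≤ e → J.filter (Oth j₀ j₁) = e := by
    intro J hJ hle
    have h1 := hmin J hJ
    obtain ⟨c, hc⟩ := le_iff_exists_add.1 hle
    rw [hc, map_add] at h1
    have h2 : c.degree = 0 := by omega
    rw [Finsupp.degree_eq_zero_iff] at h2
    rw [hc, h2, add_zero]
  refine ⟨pol j₀ j₁ e P, ?_, ?_, ?_, ?_⟩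
  · -- nonzero
    intro h0
    have h1 : (pol j₀ j₁ e P).coeff (ex j₀ Js) = P.coeff Js := by
      unfold pol
      rw [coeff_sum, Finset.sum_eq_single Js]
      · simp
      · intro J hJ hne
        rw [Finset.mem_filter] at hJ
        rw [coeff_monomial, if_neg]
        intro h
        exact hne (ex_inj j₀ j₁ r J Js (hhom J hJ.1) (hhom Js hJs) hJ.2 h)
      · intro h
        exfalso
        apply h
        rw [Finset.mem_filter]
        exact ⟨hJs, rfl⟩
    rw [h0, coeff_zero] at h1
    exact (mem_support_iff.1 hJs) h1.symm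
  · -- degrees
    intro h
    rw [degreeOf_le_iff]
    intro K hK
    unfold pol at hK
    have h1 := (MvPolynomial.support_sum) hK
    rw [Finset.mem_biUnion] at h1
    obtain ⟨J, hJ, hJK⟩ := h1
    have h2 := support_monomial_subset hJK
    rw [Finset.mem_singleton] at h2
    rw [h2, ex_apply]
    rw [Finset.mem_filter] at hJ
    rw [← hhom J hJ.1 h]
    exact Finset.single_le_sum (f := fun i => J (h, i)) (fun _ _ => Nat.zero_le _)
      (Finset.mem_univ _)
  · -- norm
    unfold pol
    refine (Roth.l1_sum _ _).trans ?_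
    simp only [Roth.l1_monomial]
    unfold l1
    apply Finset.sum_le_sum_of_subset_of_nonneg (Finset.filter_subset _ _)
    intro _ _ _
    exact abs_nonneg _
  · -- index
    let B := MvPolynomial (Fin m) L
    let CC := MvPolynomial (Fin m × ι) B
    set ξ : Fin m → L := fun h => -(a h (j₁ h) / a h (j₀ h)) with hξ
    let w : Fin m → CC := fun h => C (X h + C (ξ h)) -
      ∑ j, if Oth j₀ j₁ (h, j) then C (C (a h j / a h (j₀ h))) * X (h, j) else 0
    let y : Fin m × ι → CC := fun q => if Oth j₀ j₁ q then X q else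
      if q.2 = j₀ q.1 then w q.1 else 1
    have hyw : ∀ h, y (h, j₀ h) = w h := by
      intro h
      have : ¬ Oth j₀ j₁ (h, j₀ h) := fun hO => hO.1 rfl
      simp only [y, if_neg this, if_true]
    have hy1 : ∀ h, y (h, j₁ h) = 1 := by
      intro h
      have : ¬ Oth j₀ j₁ (h, j₁ h) := fun hO => hO.2 rfl
      simp only [y, if_neg this, if_neg (hj h)]
    have hyO : ∀ h j, Oth j₀ j₁ (h, j) → y (h, j) = X (h, j) := by
      intro h j hO
      simp only [y, if_pos hO]
    -- the linear form
    have hay : ∀ h, ∑ j, C (C (a h j)) * y (h, j) = (C (C (a h (j₀ h)) * X h) : CC) := by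
      intro h
      have h1 : ∑ j, C (C (a h j)) * y (h, j) = (C (C (a h (j₀ h))) * w h : CC) +
          (C (C (a h (j₁ h))) +
            ∑ j, if Oth j₀ j₁ (h, j) then C (C (a h j)) * X (h, j) else 0) := by
        rw [← Finset.add_sum_erase _ _ (Finset.mem_univ (j₀ h)), hyw]
        congr 1
        rw [← Finset.add_sum_erase (Finset.univ.erase (j₀ h)) _
          (Finset.mem_erase.2 ⟨hj h, Finset.mem_univ (j₁ h)⟩), hy1, mul_one]
        congr 1
        rw [← Finset.sum_filter]
        have h2 : (Finset.univ.erase (j₀ h)).erase (j₁ h) =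
            Finset.univ.filter (fun j => Oth j₀ j₁ (h, j)) := by
          ext j
          rw [Finset.mem_filter, Finset.mem_erase, Finset.mem_erase]
          exact ⟨fun h => ⟨Finset.mem_univ _, h.2.1, h.1⟩, fun h => ⟨h.2.2, h.2.1, Finset.mem_univ _⟩⟩
        rw [h2]
        apply Finset.sum_congr rfl
        intro j hjj
        rw [Finset.mem_filter] at hjj
        rw [hyO h j hjj.2]
      rw [h1]
      simp only [w]
      have h3 : (C (C (a h (j₀ h))) : CC) *
          (∑ j, if Oth j₀ j₁ (h, j) then C (C (a h j / a h (j₀ h))) * X (h, j) else 0) =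
          ∑ j, if Oth j₀ j₁ (h, j) then C (C (a h j)) * X (h, j) else 0 := by
        rw [Finset.mul_sum]
        apply Finset.sum_congr rfl
        intro j _
        rw [mul_ite, mul_zero]
        congr 1
        rw [← mul_assoc, ← C_mul, ← C_mul, mul_div_cancel₀ _ (ha h)]
      rw [mul_sub, h3]
      have h4 : (C (C (a h (j₀ h))) : CC) * C (X h + C (ξ h)) =
          C (C (a h (j₀ h)) * X h) - C (C (a h (j₁ h))) := by
        rw [← C_mul, mul_add, ← C_mul (σ := Fin m), hξ]
        have : a h (j₀ h) * -(a h (j₁ h) / a h (j₀ h)) = - a h (j₁ h) := by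
          have := ha h
          field_simp
        rw [this, ← C_sub]
        congr 1
        rw [C_neg]
        ring
      rw [h4]
      ring
    -- the inverse matrices
    have hZ : ∀ h, ∃ Zi : Matrix ι ι L, Zi * Matrix.of (z h) = 1 ∧ Matrix.of (z h) * Zi = 1 := by
      intro h
      have h1 : IsUnit (Matrix.of (z h)) := Matrix.linearIndependent_rows_iff_isUnit.1 (hz h)
      obtain ⟨u, hu⟩ := h1
      exact ⟨(u⁻¹ : (Matrix ι ι L)ˣ), by rw [← hu]; simp, by rw [← hu]; simp⟩
    choose Zi hZi hZi' using hZ
    set s : Fin m → L := fun h => ∑ j, a h j * z h (j₀ h) j with hs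
    have hZs : ∀ h j, a h j = Zi h j (j₀ h) * s h := by
      intro h j
      have h1 : (Matrix.of (z h)).mulVec (a h) = Pi.single (j₀ h) (s h) := by
        ext i
        rw [Matrix.mulVec, dotProduct]
        by_cases hi : i = j₀ h
        · subst hi
          rw [Pi.single_eq_same]
          exact Finset.sum_congr rfl fun j _ => mul_comm _ _
        · rw [Pi.single_eq_of_ne hi]
          rw [← hza h i hi]
          exact Finset.sum_congr rfl fun j _ => mul_comm _ _
      have h2 : (Zi h).mulVec ((Matrix.of (z h)).mulVec (a h)) = a h := by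
        rw [Matrix.mulVec_mulVec, hZi, Matrix.one_mulVec]
      rw [h1] at h2
      rw [← h2]
      simp [Matrix.mulVec_single]
    have hs0 : ∀ h, s h ≠ 0 := by
      intro h h0
      have := hZs h (j₀ h)
      rw [h0, mul_zero] at this
      exact ha h this
    let uu : Fin m × ι → CC := fun q => ∑ j, C (C (Zi q.1 j q.2)) * y (q.1, j)
    have huz : ∀ h j, ∑ i, C (C (z h i j)) * uu (h, i) = y (h, j) := by
      intro h j
      simp only [uu, Finset.mul_sum]
      rw [Finset.sum_comm]
      have h1 : ∀ j', ∑ i, (C (C (z h i j)) * (C (C (Zi h j' i)) * y (h, j')) : CC) =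
          C (C ((1 : Matrix ι ι L) j' j)) * y (h, j') := by
        intro j'
        rw [← hZi h, Matrix.mul_apply, map_sum, map_sum, Finset.sum_mul]
        apply Finset.sum_congr rfl
        intro i _
        rw [Matrix.of_apply, ← mul_assoc, ← C_mul, ← C_mul, mul_comm (z h i j)]
      simp only [h1]
      rw [Finset.sum_eq_single j]
      · simp
      · intro b _ hb
        rw [Matrix.one_apply_ne hb]
        simp
      · intro h; exact absurd (Finset.mem_univ _) h
    have huj0 : ∀ h, uu (h, j₀ h) = (C (C ((s h)⁻¹ * a h (j₀ h)) * X h) : CC) := by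
      intro h
      have h1 : uu (h, j₀ h) = C (C (s h)⁻¹) * ∑ j, C (C (a h j)) * y (h, j) := by
        simp only [uu]
        rw [Finset.mul_sum]
        apply Finset.sum_congr rfl
        intro j _
        rw [← mul_assoc, ← C_mul, ← C_mul]
        congr 3
        have := hs0 h
        rw [hZs h j]
        field_simp
      rw [h1, hay, ← C_mul, ← mul_assoc, ← C_mul]
    -- evaluation at `y`
    have heval : aeval y P = aeval uu (inCoord z P) := by
      unfold inCoord
      have : ((aeval uu : MvPolynomial (Fin m × ι) L →ₐ[L] CC).restrictScalars ℤ).comp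
          (aeval (fun q : Fin m × ι => ∑ i, (C (z q.1 i q.2) * X (q.1, i) :
            MvPolynomial (Fin m × ι) L))) = aeval y := by
        apply MvPolynomial.algHom_ext
        rintro ⟨h, j⟩
        rw [AlgHom.comp_apply, aeval_X, aeval_X, ← huz h j]
        rw [AlgHom.restrictScalars_apply, map_sum]
        apply Finset.sum_congr rfl
        intro i _
        rw [map_mul, aeval_X, aeval_C]
        rfl
      exact (DFunLike.congr_fun this P).symm
    -- the coefficients of the evaluation
    have hvan : ∀ E : Fin m × ι →₀ ℕ, ∀ K : Fin m →₀ ℕ, (∑ i, (K i : ℝ) / r i) < θ →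
        coeff K (coeff E (aeval y P : CC)) = 0 := by
      intro E K hK
      rw [heval, (inCoord z P).as_sum, map_sum, coeff_sum, coeff_sum]
      apply Finset.sum_eq_zero
      intro J hJ
      have hw := hind J hJ
      rw [aeval_monomial, Finsupp.prod_fintype _ _ (by simp)]
      -- split the product
      have h1 : ∏ q, uu q ^ J q = (C (monomial (ex j₀ J)
          (∏ h, ((s h)⁻¹ * a h (j₀ h)) ^ J (h, j₀ h))) : CC) *
          ∏ q : Fin m × ι, (if q.2 = j₀ q.1 then 1 else uu q ^ J q) := by
        have h2 : (C (monomial (ex j₀ J) (∏ h, ((s h)⁻¹ * a h (j₀ h)) ^ J (h, j₀ h))) : CC) =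
            ∏ q : Fin m × ι, (if q.2 = j₀ q.1 then uu q ^ J q else 1) := by
          rw [Fintype.prod_prod_type]
          have h3 : ∀ h : Fin m, (∏ i, if (h, i).2 = j₀ (h, i).1 then uu (h, i) ^ J (h, i) else 1)
              = (C ((C ((s h)⁻¹ * a h (j₀ h)) * X h) ^ J (h, j₀ h)) : CC) := by
            intro h
            simp only [Finset.prod_ite_eq', Finset.mem_univ, if_true]
            rw [huj0, map_pow]
          rw [Finset.prod_congr rfl fun h _ => h3 h, ← map_prod]
          congr 1
          rw [monomial_eq, Finsupp.prod_fintype _ _ (by simp)]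
          simp only [mul_pow, Finset.prod_mul_distrib, ← map_pow, ← map_prod, ex_apply]
        rw [h2, ← Finset.prod_mul_distrib]
        apply Finset.prod_congr rfl
        intro q _
        split_ifs <;> simp
      rw [h1]
      rw [← mul_assoc, mul_comm (algebraMap L CC _), mul_assoc, coeff_C_mul, coeff_monomial_mul',
        if_neg]
      intro hle2
      have h5 : (∑ h, (J (h, j₀ h) : ℝ) / r h) ≤ ∑ h, (K h : ℝ) / r h := by
        apply Finset.sum_le_sum
        intro h _
        apply div_le_div_of_nonneg_right _ (Nat.cast_nonneg _)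
        have := hle2 h
        rw [ex_apply] at this
        exact_mod_cast this
      linarith
    -- the coefficient at `e`
    have hcoef : coeff e (aeval y P : CC) =
        tay ξ (map (Int.castRingHom L) (pol j₀ j₁ e P)) := by
      conv_lhs => rw [P.as_sum, map_sum, coeff_sum]
      unfold pol tay
      rw [map_sum, map_sum, Finset.sum_filter]
      apply Finset.sum_congr rfl
      intro J hJ
      rw [aeval_monomial, Finsupp.prod_fintype _ _ (by simp)]
      have h1 : ∏ q, y q ^ J q = (monomial (J.filter (Oth j₀ j₁)) (1 : B) : CC) *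
          ∏ h, w h ^ J (h, j₀ h) := by
        have h2 : (monomial (J.filter (Oth j₀ j₁)) (1 : B) : CC) =
            ∏ q : Fin m × ι, (if Oth j₀ j₁ q then X q ^ J q else 1) := by
          rw [monomial_eq, C_1, one_mul, Finsupp.prod_fintype _ _ (by simp)]
          apply Finset.prod_congr rfl
          intro q _
          rw [Finsupp.filter_apply]
          split_ifs <;> simp
        have h3 : ∏ h, w h ^ J (h, j₀ h) =
            ∏ q : Fin m × ι, (if q.2 = j₀ q.1 then w q.1 ^ J q else 1) := by
          rw [Fintype.prod_prod_type]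
          apply Finset.prod_congr rfl
          intro h _
          simp only [Finset.prod_ite_eq', Finset.mem_univ, if_true]
        rw [h2, h3, ← Finset.prod_mul_distrib]
        apply Finset.prod_congr rfl
        intro q _
        simp only [y]
        by_cases hO : Oth j₀ j₁ q
        · have h4 : ¬ (q.2 = j₀ q.1) := hO.1
          rw [if_pos hO, if_pos hO, if_neg h4, mul_one]
        · rw [if_neg hO, if_neg hO, one_mul]
          split_ifs <;> simp
      have h0 : constantCoeff (∏ h, w h ^ J (h, j₀ h)) = ∏ h, (X h + C (ξ h)) ^ J (h, j₀ h) := by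
        rw [map_prod]
        apply Finset.prod_congr rfl
        intro h _
        rw [map_pow]
        congr 1
        simp only [w]
        rw [map_sub, map_sum, constantCoeff_C]
        rw [Finset.sum_eq_zero, sub_zero]
        intro j _
        split_ifs <;> simp
      have hcast : algebraMap ℤ CC (P.coeff J) = C (C ((P.coeff J : ℤ) : L)) := by
        simp
      rw [h1, hcast, coeff_C_mul, coeff_monomial_mul']
      by_cases hJe : J.filter (Oth j₀ j₁) = e
      · rw [if_pos hJe, hJe, if_pos le_rfl, tsub_self, one_mul, ← constantCoeff_eq, h0]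
        rw [map_monomial, aeval_monomial, Finsupp.prod_fintype _ _ (by simp)]
        rfl
      · rw [if_neg hJe, if_neg (fun h => hJe (hle J hJ h)), mul_zero]
    intro K hK
    rw [← hcoef]
    exact hvan e K hK

end Pool.Agent.H21.UE
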