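import Pool.Agent.H21.UE.Defs

/-!
# Module ROTH (MP_c80192_nt): Roth's lemma, part A: products in separated variables, `l1` norm,
Hasse derivatives.
-/

open MvPolynomial NumberField

namespace Pool.Agent.H21.UE.Roth

universe u

section basic

variable {R S : Type*} [CommRing R] [CommRing S] {m : ℕ}

/-- product in separated variables -/
noncomputable def mul2 (φ : MvPolynomial (Fin m) R) (ψ : MvPolynomial (Fin 1) R) :
    MvPolynomial (Fin (m + 1)) R :=
  rename Fin.succ φ * rename (fun _ => (0 : Fin (m + 1))) ψ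

lemma cond_iff (s : Fin m →₀ ℕ) (t : Fin 1 →₀ ℕ) (J : Fin (m + 1) →₀ ℕ) :
    Finsupp.mapDomain Fin.succ s + Finsupp.mapDomain (fun _ => (0 : Fin (m + 1))) t = J ↔
      (s = Finsupp.tail J ∧ t = Finsupp.single 0 (J 0)) := by
  have h0 : (Finsupp.mapDomain Fin.succ s + Finsupp.mapDomain (fun _ => (0 : Fin (m + 1))) t) 0
      = t 0 := by
    rw [Finsupp.add_apply, Finsupp.mapDomain_of_notMem_range, zero_add]
    · rw [Finsupp.mapDomain, Finsupp.sum_fintype _ _ (by simp)]
      simp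
    · rintro ⟨i, hi⟩
      exact Fin.succ_ne_zero i hi
  have h1 : ∀ i : Fin m, (Finsupp.mapDomain Fin.succ s +
      Finsupp.mapDomain (fun _ => (0 : Fin (m + 1))) t) i.succ = s i := by
    intro i
    rw [Finsupp.add_apply, Finsupp.mapDomain_apply (Fin.succ_injective m),
      Finsupp.mapDomain_of_notMem_range, add_zero]
    rintro ⟨j, hj⟩
    exact Fin.succ_ne_zero i hj.symm
  constructor
  · rintro rfl
    constructor
    · ext i
      rw [Finsupp.tail_apply, h1]
    · ext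
      simp [h0]
  · rintro ⟨hs, ht⟩
    ext i
    refine Fin.cases ?_ (fun i => ?_) i
    · rw [h0, ht]; simp
    · rw [h1, hs, Finsupp.tail_apply]

lemma coeff_mul2 (φ : MvPolynomial (Fin m) R) (ψ : MvPolynomial (Fin 1) R)
    (J : Fin (m + 1) →₀ ℕ) :
    (mul2 φ ψ).coeff J = φ.coeff (Finsupp.tail J) * ψ.coeff (Finsupp.single 0 (J 0)) := by
  induction φ using MvPolynomial.induction_on' with
  | monomial s c =>
    induction ψ using MvPolynomial.induction_on' with
    | monomial t d =>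
      have := cond_iff s t J
      simp only [mul2, rename_monomial, monomial_mul, coeff_monomial, this]
      by_cases h1 : s = Finsupp.tail J
      · by_cases h2 : t = Finsupp.single 0 (J 0)
        · simp [h1, h2]
        · simp [h1, h2]
      · simp [h1]
    | add p q hp hq =>
      have : mul2 (monomial s c) (p + q) = mul2 (monomial s c) p + mul2 (monomial s c) q := by
        simp [mul2, mul_add]
      rw [this, coeff_add, hp, hq, coeff_add, mul_add]
  | add p q hp hq =>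
    have : mul2 (p + q) ψ = mul2 p ψ + mul2 q ψ := by
      simp [mul2, add_mul]
    rw [this, coeff_add, hp, hq, coeff_add, add_mul]

lemma tay_rename {κ κ' : Type*} (f : κ → κ') (ξ : κ' → R) (φ : MvPolynomial κ R) :
    tay ξ (rename f φ) = rename f (tay (fun i => ξ (f i)) φ) := by
  unfold tay
  have : (aeval (fun i => X i + C (ξ i)) : MvPolynomial κ' R →ₐ[R] MvPolynomial κ' R).comp
      (rename f) = (rename f).comp (aeval (fun i => X i + C (ξ (f i)))) := by
    apply MvPolynomial.algHom_ext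
    intro i
    simp
  exact DFunLike.congr_fun this φ

lemma tay_mul {κ : Type*} (ξ : κ → R) (p q : MvPolynomial κ R) :
    tay ξ (p * q) = tay ξ p * tay ξ q := by
  unfold tay
  rw [map_mul]

lemma tay_mul2 (ξ : Fin (m + 1) → R) (φ : MvPolynomial (Fin m) R) (ψ : MvPolynomial (Fin 1) R) :
    tay ξ (mul2 φ ψ) = mul2 (tay (fun i => ξ i.succ) φ) (tay (fun _ => ξ 0) ψ) := by
  unfold mul2
  rw [tay_mul, tay_rename, tay_rename]

lemma map_mul2 (f : R →+* S) (φ : MvPolynomial (Fin m) R) (ψ : MvPolynomial (Fin 1) R) :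
    map f (mul2 φ ψ) = mul2 (map f φ) (map f ψ) := by
  unfold mul2
  rw [map_mul, map_rename, map_rename]

/-- the coefficients of a Hasse derivative -/
lemma coeff_hasse {κ : Type*} [Fintype κ] (I J : κ →₀ ℕ) (p : MvPolynomial κ R) :
    (hasse I p).coeff J = (∏ i, ((J i + I i).choose (I i) : R)) * p.coeff (J + I) := by
  classical
  unfold hasse
  rw [coeff_sum]
  rw [Finset.sum_eq_single (J + I)]
  · rw [coeff_monomial, if_pos (by simp)]
    simp
  · intro K _ hK
    rw [coeff_monomial]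
    split_ifs with h
    · have : ∃ i, K i < I i := by
        by_contra hcon
        push Not at hcon
        apply hK
        ext i
        have h1 := DFunLike.congr_fun h i
        simp only [Finsupp.tsub_apply] at h1
        have h2 := hcon i
        simp only [Finsupp.add_apply]
        omega
      obtain ⟨i, hi⟩ := this
      have : (∏ i, ((K i).choose (I i) : R)) = 0 := by
        apply Finset.prod_eq_zero (Finset.mem_univ i)
        rw [Nat.choose_eq_zero_of_lt hi]
        simp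
      rw [this, zero_mul]
    · rfl
  · intro h
    rw [notMem_support_iff] at h
    rw [coeff_monomial, h]
    simp

lemma map_hasse {κ : Type*} [Fintype κ] (f : R →+* S) (I : κ →₀ ℕ) (p : MvPolynomial κ R) :
    map f (hasse I p) = hasse I (map f p) := by
  ext J
  rw [coeff_map, coeff_hasse, coeff_hasse, coeff_map, map_mul, map_prod]
  simp

lemma hasse_add {κ : Type*} [Fintype κ] (I : κ →₀ ℕ) (p q : MvPolynomial κ R) :
    hasse I (p + q) = hasse I p + hasse I q := by
  ext J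
  simp only [coeff_hasse, coeff_add, mul_add]

lemma hasse_zero {κ : Type*} [Fintype κ] (I : κ →₀ ℕ) :
    hasse I (0 : MvPolynomial κ R) = 0 := by
  ext J
  simp only [coeff_hasse, coeff_zero, mul_zero]

lemma hasse_sum {κ ι : Type*} [Fintype κ] (I : κ →₀ ℕ) (s : Finset ι)
    (f : ι → MvPolynomial κ R) :
    hasse I (∑ i ∈ s, f i) = ∑ i ∈ s, hasse I (f i) := by
  classical
  induction s using Finset.induction_on with
  | empty => simp [hasse_zero]
  | insert a s ha ih => rw [Finset.sum_insert ha, Finset.sum_insert ha, hasse_add, ih]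

lemma hasse_mul2 (a : ℕ) (I : Fin m →₀ ℕ) (φ : MvPolynomial (Fin m) R)
    (ψ : MvPolynomial (Fin 1) R) :
    hasse (Finsupp.cons a I) (mul2 φ ψ) = mul2 (hasse I φ) (hasse (Finsupp.single 0 a) ψ) := by
  ext J
  rw [coeff_hasse, coeff_mul2, coeff_mul2, coeff_hasse, coeff_hasse, Fin.prod_univ_succ]
  have h1 : Finsupp.tail (J + Finsupp.cons a I) = Finsupp.tail J + I := by
    ext i; simp [Finsupp.tail_apply]
  have h2 : Finsupp.single (0 : Fin 1) ((J + Finsupp.cons a I) 0) =
      Finsupp.single 0 (J 0) + Finsupp.single 0 a := by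
    ext; simp
  rw [h1, h2]
  simp only [Finsupp.cons_zero, Finsupp.cons_succ, Finsupp.tail_apply, Finset.univ_unique,
    Fin.default_eq_zero, Finset.prod_singleton, Finsupp.single_eq_same]
  ring

/-! ### the `l1` norm -/

lemma l1_eq {κ : Type*} [Fintype κ] (p : MvPolynomial κ ℤ) (s : Finset (κ →₀ ℕ))
    (hs : p.support ⊆ s) : l1 p = ∑ J ∈ s, |((p.coeff J : ℤ) : ℝ)| := by
  unfold l1
  apply Finset.sum_subset hs
  intro J _ hJ
  rw [notMem_support_iff] at hJ
  simp [hJ]

lemma l1_nonneg {κ : Type*} [Fintype κ] (p : MvPolynomial κ ℤ) : 0 ≤ l1 p :=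
  Finset.sum_nonneg fun _ _ => abs_nonneg _

lemma coeff_le_l1 {κ : Type*} [Fintype κ] (p : MvPolynomial κ ℤ) (J : κ →₀ ℕ) :
    |((p.coeff J : ℤ) : ℝ)| ≤ l1 p := by
  by_cases h : J ∈ p.support
  · exact Finset.single_le_sum (f := fun J => |((p.coeff J : ℤ) : ℝ)|)
      (fun _ _ => abs_nonneg _) h
  · rw [notMem_support_iff] at h
    rw [h]
    simpa using l1_nonneg p

lemma one_le_l1 {κ : Type*} [Fintype κ] (p : MvPolynomial κ ℤ) (hp : p ≠ 0) : 1 ≤ l1 p := by
  obtain ⟨J, hJ⟩ := MvPolynomial.ne_zero_iff.1 hp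
  refine le_trans ?_ (coeff_le_l1 p J)
  have : (1 : ℤ) ≤ |p.coeff J| := Int.one_le_abs hJ
  calc (1 : ℝ) = ((1 : ℤ) : ℝ) := by simp
    _ ≤ ((|p.coeff J| : ℤ) : ℝ) := by exact_mod_cast this
    _ = _ := by push_cast; rfl

lemma l1_add {κ : Type*} [Fintype κ] (p q : MvPolynomial κ ℤ) : l1 (p + q) ≤ l1 p + l1 q := by
  classical
  rw [l1_eq p (p.support ∪ q.support) Finset.subset_union_left,
    l1_eq q (p.support ∪ q.support) Finset.subset_union_right,
    l1_eq (p + q) (p.support ∪ q.support) support_add, ← Finset.sum_add_distrib]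
  apply Finset.sum_le_sum
  intro J _
  rw [coeff_add]
  push_cast
  exact abs_add_le _ _

lemma l1_neg {κ : Type*} [Fintype κ] (p : MvPolynomial κ ℤ) : l1 (-p) = l1 p := by
  unfold l1
  rw [support_neg]
  apply Finset.sum_congr rfl
  intro J _
  rw [coeff_neg]
  push_cast
  exact abs_neg _

lemma l1_zero {κ : Type*} [Fintype κ] : l1 (0 : MvPolynomial κ ℤ) = 0 := by
  unfold l1
  simp

lemma l1_sum {κ ι : Type*} [Fintype κ] (s : Finset ι) (f : ι → MvPolynomial κ ℤ) :
    l1 (∑ i ∈ s, f i) ≤ ∑ i ∈ s, l1 (f i) := by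
  classical
  induction s using Finset.induction_on with
  | empty => simp [l1_zero]
  | insert a s ha ih =>
    rw [Finset.sum_insert ha, Finset.sum_insert ha]
    exact (l1_add _ _).trans (by linarith)

lemma l1_monomial {κ : Type*} [Fintype κ] (J : κ →₀ ℕ) (c : ℤ) :
    l1 (monomial J c) = |(c : ℝ)| := by
  classical
  rw [l1_eq (monomial J c) {J} support_monomial_subset]
  simp

lemma l1_mul {κ : Type*} [Fintype κ] (p q : MvPolynomial κ ℤ) : l1 (p * q) ≤ l1 p * l1 q := by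
  classical
  have h1 : p * q = ∑ J ∈ p.support, ∑ K ∈ q.support,
      monomial (J + K) (p.coeff J * q.coeff K) := by
    conv_lhs => rw [p.as_sum, q.as_sum]
    rw [Finset.sum_mul_sum]
    simp only [monomial_mul]
  rw [h1]
  refine (l1_sum _ _).trans ?_
  unfold l1
  rw [Finset.sum_mul_sum]
  apply Finset.sum_le_sum
  intro J _
  refine (l1_sum _ _).trans ?_
  apply Finset.sum_le_sum
  intro K _
  rw [l1_monomial]
  push_cast
  rw [abs_mul]

lemma l1_one {κ : Type*} [Fintype κ] : l1 (1 : MvPolynomial κ ℤ) = 1 := by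
  have : (1 : MvPolynomial κ ℤ) = monomial 0 1 := rfl
  rw [this, l1_monomial]
  simp

lemma l1_prod {κ ι : Type*} [Fintype κ] (s : Finset ι) (f : ι → MvPolynomial κ ℤ) :
    l1 (∏ i ∈ s, f i) ≤ ∏ i ∈ s, l1 (f i) := by
  classical
  induction s using Finset.induction_on with
  | empty => simp [l1_one]
  | insert a s ha ih =>
    rw [Finset.prod_insert ha, Finset.prod_insert ha]
    exact (l1_mul _ _).trans (mul_le_mul_of_nonneg_left ih (l1_nonneg _))

lemma l1_det {κ : Type*} [Fintype κ] {k : ℕ} (A : Matrix (Fin k) (Fin k) (MvPolynomial κ ℤ))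
    (M : ℝ) (hM : ∀ i j, l1 (A i j) ≤ M) : l1 A.det ≤ k.factorial * M ^ k := by
  classical
  rw [Matrix.det_apply]
  refine (l1_sum _ _).trans ?_
  have h1 : ∀ σ : Equiv.Perm (Fin k), l1 (Equiv.Perm.sign σ • ∏ i, A (σ i) i) ≤ M ^ k := by
    intro σ
    have h2 : l1 (Equiv.Perm.sign σ • ∏ i, A (σ i) i) = l1 (∏ i, A (σ i) i) := by
      rcases Int.units_eq_one_or (Equiv.Perm.sign σ) with h | h
      · rw [h, one_smul]
      · rw [h, Units.neg_smul, one_smul, l1_neg]
    rw [h2]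
    refine (l1_prod _ _).trans ?_
    calc ∏ i, l1 (A (σ i) i) ≤ ∏ _i : Fin k, M :=
          Finset.prod_le_prod (fun i _ => l1_nonneg _) (fun i _ => hM _ _)
      _ = M ^ k := by simp
  calc ∑ σ : Equiv.Perm (Fin k), l1 (Equiv.Perm.sign σ • ∏ i, A (σ i) i)
      ≤ ∑ _σ : Equiv.Perm (Fin k), M ^ k := Finset.sum_le_sum fun σ _ => h1 σ
    _ = k.factorial * M ^ k := by
        rw [Finset.sum_const, Finset.card_univ, Fintype.card_perm, Fintype.card_fin, nsmul_eq_mul]

lemma degreeOf_det {κ : Type*} [Fintype κ] {k : ℕ}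
    (A : Matrix (Fin k) (Fin k) (MvPolynomial κ ℤ)) (h : κ) (r : ℕ)
    (hA : ∀ i j, (A i j).degreeOf h ≤ r) : A.det.degreeOf h ≤ k * r := by
  classical
  rw [Matrix.det_apply]
  refine (degreeOf_sum_le _ _ _).trans ?_
  apply Finset.sup_le
  intro σ _
  have h2 : (Equiv.Perm.sign σ • ∏ i, A (σ i) i).degreeOf h = (∏ i, A (σ i) i).degreeOf h := by
    rcases Int.units_eq_one_or (Equiv.Perm.sign σ) with h | h
    · rw [h, one_smul]
    · rw [h, Units.neg_smul, one_smul, degreeOf_neg]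
  rw [h2]
  refine (degreeOf_prod_le _ _ _).trans ?_
  calc ∑ i, (A (σ i) i).degreeOf h ≤ ∑ _i : Fin k, r := Finset.sum_le_sum fun i _ => hA _ _
    _ = k * r := by simp

lemma support_mul2 (φ : MvPolynomial (Fin m) ℤ) (ψ : MvPolynomial (Fin 1) ℤ)
    (J : Fin m →₀ ℕ) (a : ℕ) (hJ : φ.coeff J ≠ 0) (ha : ψ.coeff (Finsupp.single 0 a) ≠ 0) :
    (mul2 φ ψ).coeff (Finsupp.cons a J) ≠ 0 := by
  rw [coeff_mul2, Finsupp.tail_cons, Finsupp.cons_zero]
  exact mul_ne_zero hJ ha

lemma exists_single (ψ : MvPolynomial (Fin 1) ℤ) (hψ : ψ ≠ 0) :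
    ∃ a : ℕ, ψ.coeff (Finsupp.single 0 a) ≠ 0 := by
  obtain ⟨K, hK⟩ := MvPolynomial.ne_zero_iff.1 hψ
  refine ⟨K 0, ?_⟩
  convert hK
  ext
  simp

lemma degreeOf_left (φ : MvPolynomial (Fin m) ℤ) (ψ : MvPolynomial (Fin 1) ℤ) (hψ : ψ ≠ 0)
    (h : Fin m) : φ.degreeOf h ≤ (mul2 φ ψ).degreeOf h.succ := by
  classical
  obtain ⟨a, ha⟩ := exists_single ψ hψ
  rw [degreeOf_le_iff]
  intro J hJ
  rw [mem_support_iff] at hJ
  have := support_mul2 φ ψ J a hJ ha
  have h2 := degreeOf_le_iff.1 (le_refl ((mul2 φ ψ).degreeOf h.succ)) _ (mem_support_iff.2 this)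
  simpa using h2

lemma degreeOf_right (φ : MvPolynomial (Fin m) ℤ) (ψ : MvPolynomial (Fin 1) ℤ) (hφ : φ ≠ 0)
    (h : Fin 1) : ψ.degreeOf h ≤ (mul2 φ ψ).degreeOf 0 := by
  classical
  obtain ⟨J, hJ⟩ := MvPolynomial.ne_zero_iff.1 hφ
  rw [degreeOf_le_iff]
  intro K hK
  rw [mem_support_iff] at hK
  have hK' : K = Finsupp.single 0 (K 0) := by ext; simp
  rw [hK'] at hK
  have := support_mul2 φ ψ J (K 0) hJ hK
  have h2 := degreeOf_le_iff.1 (le_refl ((mul2 φ ψ).degreeOf 0)) _ (mem_support_iff.2 this)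
  have h3 : h = 0 := Subsingleton.elim _ _
  rw [h3]
  simpa using h2

lemma l1_left (φ : MvPolynomial (Fin m) ℤ) (ψ : MvPolynomial (Fin 1) ℤ) (hψ : ψ ≠ 0) :
    l1 φ ≤ l1 (mul2 φ ψ) := by
  classical
  obtain ⟨a, ha⟩ := exists_single ψ hψ
  have h1 : l1 φ ≤ ∑ J ∈ φ.support, |(((mul2 φ ψ).coeff (Finsupp.cons a J) : ℤ) : ℝ)| := by
    unfold l1
    apply Finset.sum_le_sum
    intro J _
    rw [coeff_mul2, Finsupp.tail_cons, Finsupp.cons_zero]
    push_cast
    rw [abs_mul]
    have : (1 : ℝ) ≤ |((ψ.coeff (Finsupp.single 0 a) : ℤ) : ℝ)| := by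
      have : (1 : ℤ) ≤ |ψ.coeff (Finsupp.single 0 a)| := Int.one_le_abs ha
      exact_mod_cast this
    exact le_mul_of_one_le_right (abs_nonneg _) this
  refine h1.trans ?_
  rw [← Finset.sum_image (f := fun K => |(((mul2 φ ψ).coeff K : ℤ) : ℝ)|)
    (g := fun J => Finsupp.cons a J) (s := φ.support)]
  · apply Finset.sum_le_sum_of_subset_of_nonneg
    · intro K hK
      rw [Finset.mem_image] at hK
      obtain ⟨J, hJ, rfl⟩ := hK
      exact mem_support_iff.2 (support_mul2 φ ψ J a (mem_support_iff.1 hJ) ha)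
    · intro _ _ _
      exact abs_nonneg _
  · intro J _ J' _ hJJ
    have := congrArg Finsupp.tail hJJ
    simpa using this

lemma l1_right (φ : MvPolynomial (Fin m) ℤ) (ψ : MvPolynomial (Fin 1) ℤ) (hφ : φ ≠ 0) :
    l1 ψ ≤ l1 (mul2 φ ψ) := by
  classical
  obtain ⟨J, hJ⟩ := MvPolynomial.ne_zero_iff.1 hφ
  have hK' : ∀ K : Fin 1 →₀ ℕ, K = Finsupp.single 0 (K 0) := fun K => by ext; simp
  have h1 : l1 ψ ≤ ∑ K ∈ ψ.support, |(((mul2 φ ψ).coeff (Finsupp.cons (K 0) J) : ℤ) : ℝ)| := by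
    unfold l1
    apply Finset.sum_le_sum
    intro K _
    rw [coeff_mul2, Finsupp.tail_cons, Finsupp.cons_zero, ← hK' K]
    push_cast
    rw [abs_mul]
    have : (1 : ℝ) ≤ |((φ.coeff J : ℤ) : ℝ)| := by
      have : (1 : ℤ) ≤ |φ.coeff J| := Int.one_le_abs hJ
      exact_mod_cast this
    exact le_mul_of_one_le_left (abs_nonneg _) this
  refine h1.trans ?_
  rw [← Finset.sum_image (f := fun K => |(((mul2 φ ψ).coeff K : ℤ) : ℝ)|)
    (g := fun K : Fin 1 →₀ ℕ => Finsupp.cons (K 0) J) (s := ψ.support)]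
  · apply Finset.sum_le_sum_of_subset_of_nonneg
    · intro K hK
      rw [Finset.mem_image] at hK
      obtain ⟨K', hJ', rfl⟩ := hK
      refine mem_support_iff.2 (support_mul2 φ ψ J (K' 0) hJ ?_)
      rw [← hK' K']
      exact mem_support_iff.1 hJ'
    · intro _ _ _
      exact abs_nonneg _
  · intro K _ K' _ hKK
    have h2 := DFunLike.congr_fun hKK 0
    simp only [Finsupp.cons_zero] at h2
    rw [hK' K, hK' K', h2]

end basic

/-! ### the index -/

section index

variable {R : Type*} [CommRing R] {κ : Type*} [Fintype κ]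

lemma IndGE.mono {ξ : κ → R} {r : κ → ℝ} {θ θ' : ℝ} {p : MvPolynomial κ R} (h : θ' ≤ θ)
    (hp : IndGE ξ r θ p) : IndGE ξ r θ' p :=
  fun J hJ => hp J (lt_of_lt_of_le hJ h)

lemma indGE_nonpos {ξ : κ → R} {r : κ → ℝ} {θ : ℝ} {p : MvPolynomial κ R} (hr : ∀ i, 0 < r i)
    (h : θ ≤ 0) : IndGE ξ r θ p := by
  intro J hJ
  exfalso
  have : 0 ≤ ∑ i, (J i : ℝ) / r i :=
    Finset.sum_nonneg fun i _ => div_nonneg (Nat.cast_nonneg _) (hr i).le
  linarith

end index

end Pool.Agent.H21.UE.Roth
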