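import Pool.Agent.H80.UE.RothA

/-!
# Module ROTH (MP_c80192_nt): Roth's lemma, part B: minimal decompositions, integrality, one
variable, an inequality.
-/

open MvPolynomial NumberField

namespace Pool.Agent.H21.UE.Roth

universe u

/-! ### minimal decompositions -/

lemma min_decomp {K M N Q : Type*} [Field K] [AddCommGroup M] [AddCommGroup N] [AddCommGroup Q]
    [Module K M] [Module K N] [Module K Q] (B : M →ₗ[K] N →ₗ[K] Q) (P : Q) (n : ℕ) :
    (∃ (φ : Fin n → M) (ψ : Fin n → N), P = ∑ l, B (φ l) (ψ l)) →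
    ∃ k, k ≤ n ∧ ∃ (φ : Fin k → M) (ψ : Fin k → N), P = ∑ l, B (φ l) (ψ l) ∧
      LinearIndependent K φ ∧ LinearIndependent K ψ := by
  induction n with
  | zero =>
    rintro ⟨φ, ψ, h⟩
    exact ⟨0, le_refl _, φ, ψ, h, linearIndependent_empty_type, linearIndependent_empty_type⟩
  | succ n ih =>
    rintro ⟨φ, ψ, h⟩
    by_cases hφ : LinearIndependent K φ
    · by_cases hψ : LinearIndependent K ψ
      · exact ⟨n + 1, le_refl _, φ, ψ, h, hφ, hψ⟩
      · rw [Fintype.not_linearIndependent_iff] at hψ
        obtain ⟨g, hg, i, hi⟩ := hψ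
        obtain ⟨k, hk, h2⟩ := ih ⟨fun l => φ (i.succAbove l) - (g (i.succAbove l) / g i) • φ i,
          fun l => ψ (i.succAbove l), by
            rw [h, Fin.sum_univ_succAbove _ i]
            rw [Fin.sum_univ_succAbove _ i] at hg
            have h3 : ψ i = - ∑ l, (g (i.succAbove l) / g i) • ψ (i.succAbove l) := by
              have h4 : ψ i = (g i)⁻¹ • (g i • ψ i) := by
                rw [smul_smul, inv_mul_cancel₀ hi, one_smul]
              rw [h4, eq_neg_of_add_eq_zero_left hg, smul_neg, Finset.smul_sum]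
              congr 1
              apply Finset.sum_congr rfl
              intro l _
              rw [smul_smul, div_eq_inv_mul]
            simp only [map_sub, LinearMap.sub_apply, map_smul, LinearMap.smul_apply,
              Finset.sum_sub_distrib]
            conv_lhs => rw [h3]
            rw [map_neg, map_sum]
            simp only [map_smul]
            abel⟩
        exact ⟨k, hk.trans (Nat.le_succ n), h2⟩
    · rw [Fintype.not_linearIndependent_iff] at hφ
      obtain ⟨g, hg, i, hi⟩ := hφ
      obtain ⟨k, hk, h2⟩ := ih ⟨fun l => φ (i.succAbove l),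
        fun l => ψ (i.succAbove l) - (g (i.succAbove l) / g i) • ψ i, by
          rw [h, Fin.sum_univ_succAbove _ i]
          rw [Fin.sum_univ_succAbove _ i] at hg
          have h3 : φ i = - ∑ l, (g (i.succAbove l) / g i) • φ (i.succAbove l) := by
            have h4 : φ i = (g i)⁻¹ • (g i • φ i) := by
              rw [smul_smul, inv_mul_cancel₀ hi, one_smul]
            rw [h4, eq_neg_of_add_eq_zero_left hg, smul_neg, Finset.smul_sum]
            congr 1
            apply Finset.sum_congr rfl
            intro l _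
            rw [smul_smul, div_eq_inv_mul]
          simp only [map_sub, map_smul, Finset.sum_sub_distrib]
          conv_lhs => rw [h3]
          rw [map_neg, map_sum, LinearMap.neg_apply, LinearMap.sum_apply]
          simp only [map_smul, LinearMap.smul_apply]
          abel⟩
      exact ⟨k, hk.trans (Nat.le_succ n), h2⟩

/-- `mul2` as a bilinear map -/
noncomputable def mulB (K : Type*) [Field K] (m : ℕ) :
    MvPolynomial (Fin m) K →ₗ[K] MvPolynomial (Fin 1) K →ₗ[K] MvPolynomial (Fin (m + 1)) K :=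
  LinearMap.mk₂ K (fun φ ψ => mul2 φ ψ)
    (fun a b c => by simp [mul2, add_mul]) (fun a b c => by simp [mul2])
    (fun a b c => by simp [mul2, mul_add]) (fun a b c => by simp [mul2])

lemma mulB_apply {K : Type*} [Field K] {m : ℕ} (φ : MvPolynomial (Fin m) K)
    (ψ : MvPolynomial (Fin 1) K) : mulB K m φ ψ = mul2 φ ψ := rfl

/-- the trivial decomposition -/
lemma triv_decomp {K : Type*} [Field K] {m : ℕ} (P : MvPolynomial (Fin (m + 1)) K) (r : ℕ)
    (hr : P.degreeOf 0 ≤ r) : ∃ (φ : Fin (r + 1) → MvPolynomial (Fin m) K)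
      (ψ : Fin (r + 1) → MvPolynomial (Fin 1) K), P = ∑ l, mulB K m (φ l) (ψ l) := by
  classical
  refine ⟨fun l => (finSuccEquiv K m P).coeff l, fun l => monomial (Finsupp.single 0 (l : ℕ)) 1, ?_⟩
  ext J
  rw [coeff_sum]
  simp only [mulB_apply, coeff_mul2, finSuccEquiv_coeff_coeff, coeff_monomial]
  by_cases hJ : J 0 ≤ r
  · rw [Finset.sum_eq_single (⟨J 0, Nat.lt_succ_of_le hJ⟩ : Fin (r + 1))]
    · simp
    · intro b _ hb
      rw [if_neg, mul_zero]
      intro h
      apply hb
      have := DFunLike.congr_fun h 0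
      simp only [Finsupp.single_eq_same] at this
      exact Fin.ext this
    · intro h
      exact absurd (Finset.mem_univ _) h
  · have h1 : P.coeff J = 0 := by
      by_contra hcon
      exact hJ ((degreeOf_le_iff.1 hr) J (mem_support_iff.2 hcon))
    rw [h1]
    symm
    apply Finset.sum_eq_zero
    intro b _
    rw [if_neg, mul_zero]
    intro h
    have := DFunLike.congr_fun h 0
    simp only [Finsupp.single_eq_same] at this
    have h2 := b.2
    omega

/-! ### integrality -/

lemma exists_denom {m : ℕ} (V : MvPolynomial (Fin m) ℚ) :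
    ∃ N : ℤ, N ≠ 0 ∧ ∀ J, ∃ z : ℤ, (z : ℚ) = N * V.coeff J := by
  classical
  refine ⟨∏ J ∈ V.support, ((V.coeff J).den : ℤ), ?_, ?_⟩
  · rw [Finset.prod_ne_zero_iff]
    intro J _
    exact_mod_cast (V.coeff J).den_ne_zero
  · intro J
    by_cases hJ : J ∈ V.support
    · refine ⟨(∏ J ∈ V.support.erase J, ((V.coeff J).den : ℤ)) * (V.coeff J).num, ?_⟩
      rw [← Finset.prod_erase_mul _ _ hJ]
      push_cast
      rw [mul_assoc]
      congr 1
      rw [mul_comm]
      exact (Rat.mul_den_eq_num (V.coeff J)).symm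
    · rw [notMem_support_iff] at hJ
      exact ⟨0, by rw [hJ]; simp⟩

lemma integral_split {m : ℕ} (W : MvPolynomial (Fin (m + 1)) ℤ) (U : MvPolynomial (Fin m) ℚ)
    (V : MvPolynomial (Fin 1) ℚ) (hU : U ≠ 0) (hV : V ≠ 0)
    (hW : map (Int.castRingHom ℚ) W = mul2 U V) :
    ∃ (U' : MvPolynomial (Fin m) ℤ) (V' : MvPolynomial (Fin 1) ℤ), U' ≠ 0 ∧ V' ≠ 0 ∧
      W = mul2 U' V' := by
  classical
  obtain ⟨N, hN, hNV⟩ := exists_denom V
  choose z hz using hNV
  -- the ideal generated by the `z J`
  set 𝔞 : Ideal ℤ := Ideal.span (Set.range z) with h𝔞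
  obtain ⟨g, hg⟩ := (IsPrincipalIdealRing.principal 𝔞).principal
  have hg1 : ∀ J, g ∣ z J := by
    intro J
    have : z J ∈ 𝔞 := Ideal.subset_span ⟨J, rfl⟩
    rw [hg] at this
    exact Ideal.mem_span_singleton.1 this
  have hN' : (N : ℚ) ≠ 0 := by exact_mod_cast hN
  have hg0 : g ≠ 0 := by
    rintro rfl
    apply hV
    ext J
    have h1 := hz J
    have h2 := hg1 J
    rw [zero_dvd_iff] at h2
    rw [h2] at h1
    simp only [Int.cast_zero] at h1
    rw [coeff_zero]
    rcases mul_eq_zero.1 h1.symm with h | h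
    · exact absurd h hN'
    · exact h
  have hg0' : (g : ℚ) ≠ 0 := by exact_mod_cast hg0
  have hg2 : ∀ x ∈ 𝔞, ∀ J, ∃ y : ℤ, (y : ℚ) = (x : ℚ) / N * U.coeff J := by
    intro x hx
    rw [h𝔞] at hx
    refine Submodule.span_induction ?_ ?_ ?_ ?_ hx
    · rintro _ ⟨K, rfl⟩ J
      refine ⟨W.coeff (Finsupp.cons (K 0) J), ?_⟩
      have h1 := congrArg (coeff (Finsupp.cons (K 0) J)) hW
      rw [coeff_map, coeff_mul2, Finsupp.tail_cons, Finsupp.cons_zero] at h1
      have hK' : Finsupp.single 0 (K 0) = K := by ext; simp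
      rw [hK'] at h1
      simp only [eq_intCast] at h1
      rw [h1, hz K]
      field_simp
    · intro J
      exact ⟨0, by simp⟩
    · intro x y _ _ hx hy J
      obtain ⟨a, ha⟩ := hx J
      obtain ⟨b, hb⟩ := hy J
      refine ⟨a + b, ?_⟩
      push_cast
      rw [ha, hb]
      ring
    · intro c x _ hx J
      obtain ⟨a, ha⟩ := hx J
      refine ⟨c * a, ?_⟩
      push_cast [smul_eq_mul]
      rw [ha]
      ring
  have hg3 : g ∈ 𝔞 := by
    rw [hg]
    exact Ideal.mem_span_singleton_self g
  have hg4 := hg2 g hg3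
  choose y hy using hg4
  choose w hw using hg1
  have hy0 : ∀ J, J ∉ U.support → y J = 0 := by
    intro J hJ
    rw [notMem_support_iff] at hJ
    have := hy J
    rw [hJ, mul_zero] at this
    exact_mod_cast this
  have hw0 : ∀ J, J ∉ V.support → w J = 0 := by
    intro J hJ
    rw [notMem_support_iff] at hJ
    have h1 := hz J
    rw [hJ, mul_zero] at h1
    have h2 : z J = 0 := by exact_mod_cast h1
    have h3 := hw J
    rw [h2] at h3
    rcases mul_eq_zero.1 h3.symm with h | h
    · exact absurd h hg0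
    · exact h
  let U' : MvPolynomial (Fin m) ℤ := ∑ J ∈ U.support, monomial J (y J)
  let V' : MvPolynomial (Fin 1) ℤ := ∑ J ∈ V.support, monomial J (w J)
  have hU' : ∀ J, U'.coeff J = y J := by
    intro J
    simp only [U', coeff_sum, coeff_monomial]
    rw [Finset.sum_ite_eq' U.support J y]
    split_ifs with h
    · rfl
    · exact (hy0 J h).symm
  have hV' : ∀ J, V'.coeff J = w J := by
    intro J
    simp only [V', coeff_sum, coeff_monomial]
    rw [Finset.sum_ite_eq' V.support J w]
    split_ifs with h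
    · rfl
    · exact (hw0 J h).symm
  have hUV : map (Int.castRingHom ℚ) W = map (Int.castRingHom ℚ) (mul2 U' V') := by
    ext J
    rw [hW, coeff_map, coeff_mul2, coeff_mul2, hU', hV']
    simp only [eq_intCast]
    push_cast
    rw [hy]
    have h1 := hz (Finsupp.single 0 (J 0))
    rw [hw] at h1
    push_cast at h1
    have h2 : V.coeff (Finsupp.single 0 (J 0)) =
        (g : ℚ) * (w (Finsupp.single 0 (J 0))) / N := by
      field_simp
      rw [h1]
      try ring
    rw [h2]
    try ring
  refine ⟨U', V', ?_, ?_, ?_⟩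
  · intro h
    apply hU
    ext J
    have h1 := hy J
    have h2 : y J = 0 := by rw [← hU', h, coeff_zero]
    rw [h2] at h1
    rw [coeff_zero]
    have h3 : (g : ℚ) / N ≠ 0 := div_ne_zero hg0' hN'
    simp only [Int.cast_zero] at h1
    rcases mul_eq_zero.1 h1.symm with h | h
    · exact absurd h h3
    · exact h
  · intro h
    apply hV
    ext J
    have h1 := hz J
    have h2 : w J = 0 := by rw [← hV', h, coeff_zero]
    rw [hw, h2] at h1
    simp only [mul_zero, Int.cast_zero] at h1
    rw [coeff_zero]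
    rcases mul_eq_zero.1 h1.symm with h | h
    · exact absurd h hN'
    · exact h
  · exact map_injective (Int.castRingHom ℚ) Int.cast_injective hUV

/-! ### one variable -/

lemma coeff_aeval_X {R : Type*} [CommRing R] (p : MvPolynomial (Fin 1) R) (a : ℕ) :
    (aeval (fun _ => (Polynomial.X : Polynomial R)) p).coeff a =
      p.coeff (Finsupp.single 0 a) := by
  induction p using MvPolynomial.induction_on' with
  | monomial s c =>
    rw [aeval_monomial, coeff_monomial]
    rw [Finsupp.prod_fintype _ _ (by simp)]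
    simp only [Finset.univ_unique, Fin.default_eq_zero, Finset.prod_singleton]
    rw [Polynomial.algebraMap_eq, Polynomial.coeff_C_mul_X_pow]
    have : (s = Finsupp.single 0 a) ↔ (a = s 0) := by
      constructor
      · rintro rfl; simp
      · rintro rfl; ext; simp
    simp only [this]
  | add p q hp hq => rw [map_add, Polynomial.coeff_add, hp, hq, coeff_add]

lemma taylor_aeval {R : Type*} [CommRing R] (ξ : R) (p : MvPolynomial (Fin 1) R) :
    Polynomial.taylorAlgHom ξ (aeval (fun _ => (Polynomial.X : Polynomial R)) p) =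
      aeval (fun _ => (Polynomial.X : Polynomial R)) (tay (fun _ => ξ) p) := by
  unfold tay
  have : (Polynomial.taylorAlgHom ξ).comp
      (aeval (fun _ => (Polynomial.X : Polynomial R)) : MvPolynomial (Fin 1) R →ₐ[R] _) =
      (aeval (fun _ => (Polynomial.X : Polynomial R))).comp
        (aeval (fun i => X i + C ((fun _ => ξ) i))) := by
    apply MvPolynomial.algHom_ext
    intro i
    simp
  exact DFunLike.congr_fun this p

/-- Roth's lemma in one variable -/
lemma base (h3 : T_BAS.{u}) (ε : ℝ) (hε : 0 < ε) (L : Type u) [Field L] [NumberField L]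
    (ξ : L) (r : ℕ) (p : MvPolynomial (Fin 1) ℤ) (T : ℝ) (hp : p ≠ 0) (hr : 1 ≤ r)
    (hT : 1 ≤ T) (hHt : ¬ Ht ξ T) (hlog : Real.log (l1 p) + r ≤ ε * r * Real.log T) :
    ¬ IndGE (fun _ => ξ) (fun _ => (r : ℝ)) ε (map (Int.castRingHom L) p) := by
  classical
  intro hind
  apply hHt
  have hr0 : (0 : ℝ) < r := by exact_mod_cast hr
  set j : ℕ := ⌈ε * r⌉₊ with hj
  have hj1 : 1 ≤ j := Nat.one_le_iff_ne_zero.2 (Nat.ceil_pos.2 (by positivity)).ne'
  set P : Polynomial ℤ := aeval (fun _ => (Polynomial.X : Polynomial ℤ)) p with hP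
  have hPc : ∀ a, P.coeff a = p.coeff (Finsupp.single 0 a) := fun a => coeff_aeval_X p a
  have hPL : P.map (Int.castRingHom L) =
      aeval (fun _ => (Polynomial.X : Polynomial L)) (map (Int.castRingHom L) p) := by
    ext a
    rw [Polynomial.coeff_map, hPc, coeff_aeval_X, coeff_map]
  refine h3 L ξ P j T ?_ hj1 ?_ (by linarith) ?_
  · intro h
    obtain ⟨a, ha⟩ := exists_single p hp
    apply ha
    rw [← hPc, h, Polynomial.coeff_zero]
  · have h1 : (Polynomial.X : Polynomial L) ^ j ∣
        Polynomial.taylorAlgHom ξ (P.map (Int.castRingHom L)) := by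
      rw [hPL, taylor_aeval, Polynomial.X_pow_dvd_iff]
      intro d hd
      rw [coeff_aeval_X]
      apply hind
      simp only [Finset.univ_unique, Fin.default_eq_zero, Finset.sum_singleton,
        Finsupp.single_eq_same]
      rw [div_lt_iff₀ hr0]
      exact Nat.lt_ceil.1 hd
    have h2 := map_dvd (Polynomial.taylorAlgHom (-ξ)) h1
    rw [map_pow] at h2
    have h4 : Polynomial.taylorAlgHom (-ξ) (Polynomial.X : Polynomial L) =
        Polynomial.X - Polynomial.C ξ := by
      simp [sub_eq_add_neg]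
    have h5 : Polynomial.taylorAlgHom (-ξ)
        (Polynomial.taylorAlgHom ξ (P.map (Int.castRingHom L))) = P.map (Int.castRingHom L) := by
      simp [Polynomial.taylor_taylor]
    rwa [h4, h5] at h2
  · have h1 : ∑ i ∈ P.support, |((P.coeff i : ℤ) : ℝ)| = l1 p := by
      have h6 : ∑ J ∈ P.support.image (fun a => Finsupp.single (0 : Fin 1) a),
          |((p.coeff J : ℤ) : ℝ)| = ∑ i ∈ P.support, |((P.coeff i : ℤ) : ℝ)| := by
        rw [Finset.sum_image]
        · apply Finset.sum_congr rfl
          intro a _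
          rw [hPc]
        · intro a _ b _ hab
          have := DFunLike.congr_fun hab 0
          simpa using this
      rw [← h6, l1_eq p]
      intro J hJ
      rw [Finset.mem_image]
      refine ⟨J 0, ?_, by ext; simp⟩
      rw [Polynomial.mem_support_iff, hPc]
      have hK' : Finsupp.single 0 (J 0) = J := by ext; simp
      rw [hK']
      exact mem_support_iff.1 hJ
    rw [h1]
    have hl : 0 < l1 p := lt_of_lt_of_le one_pos (one_le_l1 p hp)
    have hT0 : 0 < T := by linarith
    rw [← Real.log_le_log_iff hl (by positivity), Real.log_pow]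
    have h7 : 0 ≤ Real.log T := Real.log_nonneg hT
    have h8 : ε * r ≤ j := Nat.le_ceil _
    have h9 : ε * r * Real.log T ≤ j * Real.log T := mul_le_mul_of_nonneg_right h8 h7
    linarith

/-! ### an inequality -/

lemma sum_max_ge (t : ℝ) (ht : 0 < t) (ht1 : t ≤ 1) (k r : ℕ) (hk : 1 ≤ k) (hr : 1 ≤ r)
    (hkr : k ≤ r + 1) :
    t ^ 2 * k / 4 ≤ ∑ j : Fin k, max 0 (t - (j : ℝ) / r) := by
  have hr0 : (0 : ℝ) < r := by exact_mod_cast hr
  have hk0 : (0 : ℝ) < k := by exact_mod_cast hk
  set n : ℕ := ⌈t * k / 2⌉₊ with hn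
  have hn1 : (t * k / 2 : ℝ) ≤ n := Nat.le_ceil _
  have hn2 : (n : ℝ) < t * k / 2 + 1 := Nat.ceil_lt_add_one (by positivity)
  have hnk : n ≤ k := by
    rw [hn, Nat.ceil_le]
    nlinarith
  have hn0 : 0 < n := Nat.ceil_pos.2 (by positivity)
  have h1 : ∑ j : Fin k, max 0 (t - (j : ℝ) / r) =
      ∑ j ∈ Finset.range k, max 0 (t - (j : ℝ) / r) :=
    Fin.sum_univ_eq_sum_range (fun j => max 0 (t - (j : ℝ) / r)) k
  rw [h1]
  have h2 : ∑ j ∈ Finset.range n, (t - (j : ℝ) / r) ≤
      ∑ j ∈ Finset.range k, max 0 (t - (j : ℝ) / r) := by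
    calc ∑ j ∈ Finset.range n, (t - (j : ℝ) / r)
        ≤ ∑ j ∈ Finset.range n, max 0 (t - (j : ℝ) / r) :=
          Finset.sum_le_sum fun j _ => le_max_right _ _
      _ ≤ _ := Finset.sum_le_sum_of_subset_of_nonneg (Finset.range_mono hnk)
          (fun j _ _ => le_max_left _ _)
  refine le_trans ?_ h2
  have h3 : (∑ j ∈ Finset.range n, (j : ℝ)) = n * (n - 1) / 2 := by
    have := Finset.sum_range_id_mul_two n
    have h4 : ((∑ j ∈ Finset.range n, j : ℕ) : ℝ) * 2 = n * (n - 1) := by
      have h5 : (((∑ j ∈ Finset.range n, j) * 2 : ℕ) : ℝ) = ((n * (n - 1) : ℕ) : ℝ) := by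
        rw [this]
      push_cast [Nat.cast_sub hn0] at h5
      push_cast
      linarith
    push_cast at h4
    linarith
  rw [Finset.sum_sub_distrib, ← Finset.sum_div, h3]
  simp only [Finset.sum_const, Finset.card_range, nsmul_eq_mul]
  have hn' : (0 : ℝ) < n := by exact_mod_cast hn0
  have h6 : ((n : ℝ) - 1) / (2 * r) ≤ t / 2 := by
    rw [div_le_iff₀ (by positivity)]
    have h7 : (k : ℝ) ≤ r + 1 := by exact_mod_cast hkr
    have h8 : (1 : ℝ) ≤ r := by exact_mod_cast hr
    nlinarith
  have h9 : (n : ℝ) * t - n * (n - 1) / 2 / r = n * (t - (n - 1) / (2 * r)) := by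
    field_simp
  rw [h9]
  have h10 : (t / 2 : ℝ) ≤ t - (n - 1) / (2 * r) := by linarith
  calc t ^ 2 * k / 4 = (t * k / 2) * (t / 2) := by ring
    _ ≤ n * (t - (n - 1) / (2 * r)) := by
      apply mul_le_mul hn1 h10 (by positivity) hn'.le

end Pool.Agent.H21.UE.Roth
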